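import Mathlib
import Pool.Agent.TH410.KV.Alg

set_option autoImplicit false
set_option linter.unusedSectionVars false

/-! Extraction of powers with a non-zero value of a functional. -/

namespace Pool.Agent.U291.KE

open Finset Pool.Agent.TH410.KV
open scoped Pointwise

section Alg

variable {A : Type*} [CommRing A] [Algebra (ZMod 2) A]

/-- `y` is a combination of positive powers of `x` -/
def Po (x y : A) : Prop :=
  ∃ B : ℕ, y ∈ Submodule.span (ZMod 2) {w | ∃ M, 1 ≤ M ∧ M ≤ B ∧ w = x ^ M}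

theorem Po.mono {x y : A} {B B' : ℕ} (h : B ≤ B')
    (hy : y ∈ Submodule.span (ZMod 2) {w | ∃ M, 1 ≤ M ∧ M ≤ B ∧ w = x ^ M}) :
    y ∈ Submodule.span (ZMod 2) {w | ∃ M, 1 ≤ M ∧ M ≤ B' ∧ w = x ^ M} := by
  refine Submodule.span_mono ?_ hy
  rintro _ ⟨M, h1, h2, rfl⟩
  exact ⟨M, h1, h2.trans h, rfl⟩

theorem Po.self (x : A) : Po x x :=
  ⟨1, Submodule.subset_span ⟨1, le_rfl, le_rfl, (pow_one x).symm⟩⟩

theorem Po.zero (x : A) : Po x 0 := ⟨0, Submodule.zero_mem _⟩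

theorem Po.add {x y z : A} (hy : Po x y) (hz : Po x z) : Po x (y + z) := by
  obtain ⟨B, hB⟩ := hy
  obtain ⟨C, hC⟩ := hz
  exact ⟨max B C, Submodule.add_mem _ (Po.mono (le_max_left _ _) hB)
    (Po.mono (le_max_right _ _) hC)⟩

theorem Po.sub {x y z : A} (hy : Po x y) (hz : Po x z) : Po x (y - z) := by
  obtain ⟨B, hB⟩ := hy
  obtain ⟨C, hC⟩ := hz
  exact ⟨max B C, Submodule.sub_mem _ (Po.mono (le_max_left _ _) hB)
    (Po.mono (le_max_right _ _) hC)⟩

theorem Po.mul {x y z : A} (hy : Po x y) (hz : Po x z) : Po x (y * z) := by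
  obtain ⟨B, hB⟩ := hy
  obtain ⟨C, hC⟩ := hz
  refine ⟨B + C, ?_⟩
  have h1 := Submodule.mul_mem_mul hB hC
  rw [Submodule.span_mul_span] at h1
  refine Submodule.span_mono ?_ h1
  rintro _ ⟨_, ⟨M, hM1, hM2, rfl⟩, _, ⟨N, hN1, hN2, rfl⟩, rfl⟩
  exact ⟨M + N, by omega, by omega, by simp only [pow_add]⟩

theorem Po.sum {x : A} {ι : Type*} (s : Finset ι) (f : ι → A) (h : ∀ i ∈ s, Po x (f i)) :
    Po x (∑ i ∈ s, f i) := by
  classical
  induction s using Finset.induction_on with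
  | empty => simpa using Po.zero x
  | insert a s ha ih =>
    rw [sum_insert ha]
    exact (h a (mem_insert_self _ _)).add (ih fun i hi => h i (mem_insert_of_mem hi))

theorem Po.list_prod {x : A} (L : List A) (hL : L ≠ []) (h : ∀ y ∈ L, Po x y) : Po x L.prod := by
  induction L with
  | nil => exact absurd rfl hL
  | cons a L ih =>
    rw [List.prod_cons]
    rcases hL' : L with _ | ⟨b, L'⟩
    · rw [List.prod_nil, mul_one]
      exact h a List.mem_cons_self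
    · rw [← hL']
      exact (h a List.mem_cons_self).mul (ih (by rw [hL']; exact List.cons_ne_nil _ _)
        fun y hy => h y (List.mem_cons_of_mem _ hy))

variable [CharP A 2]

theorem Po.De {x y : A} (h : Po x y) (i : ℕ) :
    Po x (((Pool.Agent.TH410.KV.De 2 : Module.End (ZMod 2) A) ^ i) y) := by
  induction i with
  | zero => simpa using h
  | succ i ih =>
    rw [pow_succ', Module.End.mul_apply, De_apply, pow_two]
    exact ih.sub (ih.mul ih)

/-- **Extraction.** -/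
theorem extract2 {x z y v : A} (Lb : A →ₗ[ZMod 2] ZMod 2) {n T P B : ℕ}
    (hy : y ∈ Submodule.span (ZMod 2) {w | ∃ M, 1 ≤ M ∧ M ≤ B ∧ w = x ^ M})
    (hz : ((De 2 : Module.End (ZMod 2) A) ^ n) z = v)
    (hv : (De 2 : Module.End (ZMod 2) A) v = 0) (hL : Lb (y * v) ≠ 0) (hT : ¬ 2 ∣ T)
    (hTP : 2 ^ T ≡ 1 [MOD P]) (s : ℕ) (hs : 1 ≤ s) :
    ∃ M N : ℕ, 1 ≤ M ∧ M ≤ B ∧ N ≤ s * 2 ^ (T * n) ∧ N ≡ s [MOD P] ∧
      Lb (x ^ M * z ^ N) ≠ 0 := by
  by_contra hcon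
  push Not at hcon
  have h2 := top_mem (T := T) 2 hz hv
  have h4 : ((T : A) ^ n * v) ^ s ∈ Submodule.span (ZMod 2)
      {y | ∃ N, N ≡ s [MOD P] ∧ s ≤ N ∧ N ≤ s * 2 ^ (T * n) ∧ y = z ^ N} := by
    refine pow_mem_span 2 (E := {m | ∃ k ≤ n, m = 2 ^ (T * k)}) (P := P) (B := 2 ^ (T * n)) ?_ ?_ s
    · rintro _ ⟨k, hk, rfl⟩
      refine ⟨?_, Nat.one_le_pow _ _ (by norm_num),
        Nat.pow_le_pow_right (by norm_num) (Nat.mul_le_mul_left _ hk)⟩
      rw [pow_mul]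
      simpa using hTP.pow k
    · refine Submodule.span_mono ?_ h2
      rintro _ ⟨k, hk, rfl⟩
      exact ⟨2 ^ (T * k), ⟨k, hk, rfl⟩, rfl⟩
  have h5 := Submodule.mul_mem_mul hy h4
  rw [Submodule.span_mul_span] at h5
  have h6 : ∀ w ∈ Submodule.span (ZMod 2) (({w | ∃ M, 1 ≤ M ∧ M ≤ B ∧ w = x ^ M} : Set A) *
      {y | ∃ N, N ≡ s [MOD P] ∧ s ≤ N ∧ N ≤ s * 2 ^ (T * n) ∧ y = z ^ N}), Lb w = 0 := by
    intro w hw
    induction hw using Submodule.span_induction with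
    | mem w hw =>
      obtain ⟨_, ⟨M, hM1, hM2, rfl⟩, _, ⟨N, hN1, _, hN2, rfl⟩, rfl⟩ := hw
      exact hcon M N hM1 hM2 hN2 hN1
    | zero => exact map_zero _
    | add x y _ _ hx hy => rw [map_add, hx, hy, add_zero]
    | smul a x _ hx => rw [map_smul, hx, smul_zero]
  have h7 := h6 _ h5
  have hv2 : v ^ 2 = v := (sub_eq_zero.1 hv).symm
  have hvs : v ^ s = v := pow_eq_self (by norm_num) hv2 s hs (Nat.modEq_one)
  have h8 : y * ((T : A) ^ n * v) ^ s = ((T : ZMod 2) ^ (n * s)) • (y * v) := by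
    rw [mul_pow, ← pow_mul, hvs, Algebra.smul_def, map_pow, map_natCast]
    ring
  rw [h8, map_smul, smul_eq_mul, mul_eq_zero] at h7
  rcases h7 with h7 | h7
  · have h9 : (T : ZMod 2) = 0 := by
      by_contra h9
      exact pow_ne_zero _ h9 h7
    exact hT ((ZMod.natCast_eq_zero_iff T 2).1 h9)
  · exact hL h7

end Alg

end Pool.Agent.U291.KE
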