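import Mathlib
import Pool.Agent.TH410.KV.Iter

set_option autoImplicit false
set_option linter.unusedSectionVars false

/-! Complete multipartite blocks, joins of two blocks, absorption of small blocks. -/

namespace Pool.Agent.U291.KE

open Finset Pool.Agent.H98R2.Ev Pool.Agent.TH410.KV MvPolynomial

variable {𝓕 : Fam}

/-- inclusion of types -/
def le (s t : TY 𝓕) : Prop := ∀ (F : 𝓕) (U : Finset (Fin F.1.1)), U ∈ s.1 F → U ∈ t.1 F

/-- the type of a large complete `m`-partite graph -/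
def kt (m : ℕ) : TY 𝓕 := ⟨fun F => {U | ∃ c : Fin F.1.1 → ℕ, (∀ x ∈ U, c x < m) ∧
    ∀ x ∈ U, ∀ y ∈ U, F.1.2.Adj x y → c x ≠ c y}, by
  classical
  intro F
  refine ⟨⟨fun _ => 0, by simp, by simp⟩, ?_⟩
  rintro U W hd hUW ⟨c, hc1, hc2⟩ ⟨d, hd1, hd2⟩
  refine ⟨fun x => if x ∈ U then c x else d x, ?_, ?_⟩
  · intro x hx
    by_cases h : x ∈ U
    · simp only [h, if_true]; exact hc1 x h
    · simp only [h, if_false]; exact hd1 x ((mem_union.1 hx).resolve_left h)
  · intro x hx y hy hxy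
    by_cases h1 : x ∈ U <;> by_cases h2 : y ∈ U
    · simp only [h1, h2, if_true]; exact hc2 x h1 y h2 hxy
    · exact absurd hxy (hUW x h1 y ((mem_union.1 hy).resolve_left h2))
    · exact absurd hxy.symm (hUW y h2 x ((mem_union.1 hx).resolve_left h1))
    · simp only [h1, h2, if_false]
      exact hd2 x ((mem_union.1 hx).resolve_left h1) y ((mem_union.1 hy).resolve_left h2) hxy⟩

/-- the join of two blocks -/
def jo (s t : TY 𝓕) : TY 𝓕 := ⟨fun F => {U | ∃ A : Finset (Fin F.1.1), A ⊆ U ∧ A ∈ s.1 F ∧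
    U \ A ∈ t.1 F}, by
  classical
  intro F
  refine ⟨⟨∅, by simp, (s.2 F).1, by simpa using (t.2 F).1⟩, ?_⟩
  rintro U W hd hUW ⟨A, hA1, hA2, hA3⟩ ⟨B, hB1, hB2, hB3⟩
  have e1 : (U ∪ W) \ (A ∪ B) = (U \ A) ∪ (W \ B) := by
    ext x
    simp only [mem_sdiff, mem_union, not_or]
    constructor
    · rintro ⟨h1 | h1, h2, h3⟩
      · exact Or.inl ⟨h1, h2⟩
      · exact Or.inr ⟨h1, h3⟩
    · rintro (⟨h1, h2⟩ | ⟨h1, h2⟩)
      · exact ⟨Or.inl h1, h2, fun h => (Finset.disjoint_left.1 hd) h1 (hB1 h)⟩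
      · exact ⟨Or.inr h1, fun h => (Finset.disjoint_left.1 hd) (hA1 h) h1, h2⟩
  refine ⟨A ∪ B, union_subset_union hA1 hB1, ?_, ?_⟩
  · exact (s.2 F).2 _ _ (disjoint_of_subset_left hA1 (disjoint_of_subset_right hB1 hd))
      (fun x hx y hy => hUW x (hA1 hx) y (hB1 hy)) hA2 hB2
  · rw [e1]
    exact (t.2 F).2 _ _ (disjoint_of_subset_left sdiff_subset
      (disjoint_of_subset_right sdiff_subset hd))
      (fun x hx y hy => hUW x (sdiff_subset hx) y (sdiff_subset hy)) hA3 hB3⟩

theorem le_refl' (t : TY 𝓕) : le t t := fun _ _ h => h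

theorem le_trans' {r s t : TY 𝓕} (h1 : le r s) (h2 : le s t) : le r t :=
  fun F U h => h2 F U (h1 F U h)

theorem ty_ext {s t : TY 𝓕} (h : ∀ (F : 𝓕) (U : Finset (Fin F.1.1)), U ∈ s.1 F ↔ U ∈ t.1 F) :
    s = t := by
  apply Subtype.ext
  funext F
  ext U
  exact h F U

theorem kt_mono {m n : ℕ} (h : m ≤ n) : le (kt m : TY 𝓕) (kt n) := by
  rintro F U ⟨c, h1, h2⟩
  exact ⟨c, fun x hx => lt_of_lt_of_le (h1 x hx) h, h2⟩

theorem kt_union {m n : ℕ} (F : 𝓕) (A B : Finset (Fin F.1.1)) (hA : A ∈ (kt m : TY 𝓕).1 F)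
    (hB : B ∈ (kt n : TY 𝓕).1 F) :
    (A ∪ B : Finset (Fin F.1.1)) ∈ (kt (m + n) : TY 𝓕).1 F := by
  classical
  obtain ⟨c, hc1, hc2⟩ := hA
  obtain ⟨d, hd1, hd2⟩ := hB
  have hB' : ∀ x ∈ A ∪ B, x ∉ A → x ∈ B := fun x hx h => (mem_union.1 hx).resolve_left h
  refine ⟨fun x => if x ∈ A then c x else m + d x, ?_, ?_⟩
  · intro x hx
    by_cases h : x ∈ A
    · simp only [h, if_true]
      have := hc1 x h
      omega
    · simp only [h, if_false]
      have := hd1 x (hB' x hx h)
      omega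
  · intro x hx y hy hxy
    by_cases h1 : x ∈ A <;> by_cases h2 : y ∈ A
    · simp only [h1, h2, if_true]; exact hc2 x h1 y h2 hxy
    · simp only [h1, h2, if_true, if_false]
      have := hc1 x h1
      omega
    · simp only [h1, h2, if_true, if_false]
      have := hc1 y h2
      omega
    · simp only [h1, h2, if_false]
      have := hd2 x (hB' x hx h1) y (hB' y hy h2) hxy
      omega

theorem jo_zero (t : TY 𝓕) : jo (kt 0) t = t := by
  classical
  apply ty_ext
  intro F U
  constructor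
  · rintro ⟨A, _, ⟨c, hc, _⟩, h⟩
    have : A = ∅ := by
      rw [eq_empty_iff_forall_notMem]
      intro x hx
      exact absurd (hc x hx) (by omega)
    rw [this, sdiff_empty] at h
    exact h
  · intro h
    exact ⟨∅, by simp, ((kt 0 : TY 𝓕).2 F).1, by rw [sdiff_empty]; exact h⟩

theorem jo_jo (m n : ℕ) (t : TY 𝓕) : jo (kt m) (jo (kt n) t) = jo (kt (m + n)) t := by
  classical
  apply ty_ext
  intro F U
  constructor
  · rintro ⟨A, hA, hA1, B, hB, hB1, hB2⟩
    refine ⟨A ∪ B, union_subset hA (hB.trans sdiff_subset), kt_union F A B hA1 hB1, ?_⟩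
    have e1 : U \ (A ∪ B) = (U \ A) \ B := by
      ext x
      simp only [mem_sdiff, mem_union]
      tauto
    rw [e1]
    exact hB2
  · rintro ⟨C, hC, ⟨c, hc1, hc2⟩, hC2⟩
    refine ⟨C.filter (fun x => c x < m), (filter_subset _ _).trans hC, ?_,
      C.filter (fun x => ¬ c x < m), ?_, ?_, ?_⟩
    · exact ⟨c, fun x hx => (mem_filter.1 hx).2, fun x hx y hy =>
        hc2 x (mem_filter.1 hx).1 y (mem_filter.1 hy).1⟩
    · intro x hx
      rw [mem_filter] at hx
      rw [mem_sdiff, mem_filter]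
      exact ⟨hC hx.1, fun h => hx.2 h.2⟩
    · refine ⟨fun x => c x - m, ?_, ?_⟩
      · intro x hx
        rw [mem_filter] at hx
        have := hc1 x hx.1
        show c x - m < n
        omega
      · intro x hx y hy hxy
        rw [mem_filter] at hx hy
        have := hc2 x hx.1 y hy.1 hxy
        show c x - m ≠ c y - m
        omega
    · have e1 : (U \ C.filter (fun x => c x < m)) \ C.filter (fun x => ¬ c x < m) = U \ C := by
        ext x
        simp only [mem_sdiff, mem_filter]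
        tauto
      rw [e1]
      exact hC2

theorem jo_kt_kt (m n : ℕ) : jo (kt m) (kt n : TY 𝓕) = kt (m + n) := by
  have h0 : (kt n : TY 𝓕) = jo (kt n) (kt 0) := by
    classical
    apply ty_ext
    intro F U
    constructor
    · intro h
      exact ⟨U, Subset.refl _, h, by rw [sdiff_self]; exact ((kt 0 : TY 𝓕).2 F).1⟩
    · rintro ⟨A, hA, h1, c, hc, _⟩
      have : U = A := by
        apply Subset.antisymm _ hA
        intro x hx
        by_contra hxA
        exact absurd (hc x (mem_sdiff.2 ⟨hx, hxA⟩)) (by omega)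
      rw [this]
      exact h1
  have h1 : ∀ k, (kt k : TY 𝓕) = jo (kt k) (kt 0) := by
    intro k
    classical
    apply ty_ext
    intro F U
    constructor
    · intro h
      exact ⟨U, Subset.refl _, h, by rw [sdiff_self]; exact ((kt 0 : TY 𝓕).2 F).1⟩
    · rintro ⟨A, hA, h1, c, hc, _⟩
      have : U = A := by
        apply Subset.antisymm _ hA
        intro x hx
        by_contra hxA
        exact absurd (hc x (mem_sdiff.2 ⟨hx, hxA⟩)) (by omega)
      rw [this]
      exact h1
  rw [h1 n, jo_jo, ← h1]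

theorem le_jo_left (s t : TY 𝓕) : le s (jo s t) := by
  classical
  intro F U h
  exact ⟨U, Subset.refl _, h, by rw [sdiff_self]; exact (t.2 F).1⟩

theorem kt_univ (m : ℕ) (F : 𝓕) : univ ∈ (kt m : TY 𝓕).1 F ↔ F.1.2.Colorable m := by
  constructor
  · rintro ⟨c, h1, h2⟩
    exact ⟨SimpleGraph.Coloring.mk (fun x => (⟨c x, h1 x (mem_univ x)⟩ : Fin m))
      (fun {x y} hxy h => h2 x (mem_univ x) y (mem_univ y) hxy (by simpa using h))⟩
  · rintro ⟨C⟩
    refine ⟨fun x => (C x : ℕ), fun x _ => (C x).2, fun x _ y _ hxy h => ?_⟩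
    exact C.valid hxy (Fin.ext h)

section J

variable (q : ℕ) [NeZero q]

theorem iter_xi (i : ℕ) : (J q)^[i] (xi : TY 𝓕) = kt (q ^ i) := by
  classical
  have hcard : Fintype.card (Fin i → ZMod q) = q ^ i := by
    rw [Fintype.card_fun, ZMod.card, Fintype.card_fin]
  let e : (Fin i → ZMod q) ≃ Fin (q ^ i) := Fintype.equivFinOfCardEq hcard
  apply ty_ext
  intro F U
  rw [mem_iter]
  constructor
  · rintro ⟨col, h⟩
    refine ⟨fun x => (e (col x) : ℕ), fun x _ => (e (col x)).2, fun x hx y hy hxy heq => ?_⟩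
    have h1 : col x = col y := e.injective (Fin.ext heq)
    exact h (col x) x (by simp [hx]) y (by simp [hy, h1]) hxy
  · rintro ⟨c, h1, h2⟩
    refine ⟨fun x => if h : c x < q ^ i then e.symm ⟨c x, h⟩ else fun _ => 0, fun a => ?_⟩
    intro x hx y hy hxy
    rw [mem_filter] at hx hy
    have hx' := h1 x hx.1
    have hy' := h1 y hy.1
    have hx2 : e.symm ⟨c x, hx'⟩ = a := by
      have := hx.2
      simpa only [dif_pos hx'] using this
    have hy2 : e.symm ⟨c y, hy'⟩ = a := by
      have := hy.2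
      simpa only [dif_pos hy'] using this
    have h3 := e.symm.injective (hx2.trans hy2.symm)
    exact h2 x hx.1 y hy.1 hxy (by simpa using h3)

theorem kt_le_iter (i : ℕ) (t : TY 𝓕) (ht : le xi t) : le (kt (q ^ i)) ((J q)^[i] t) := by
  intro F U h
  rw [← iter_xi, mem_iter] at h
  rw [mem_iter]
  obtain ⟨col, h⟩ := h
  exact ⟨col, fun a => ht F _ (h a)⟩

end J

open Classical in
/-- small blocks which together fit into the block `t` -/
def Abs {V : Type} (τ : V → TY 𝓕) (t : TY 𝓕) : Prop :=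
  ∀ (F : 𝓕) (ρ : Fin F.1.1 → Option V),
    (∀ v, univ.filter (fun x => ρ x = some v) ∈ (τ v).1 F) →
    univ.filter (fun x => ρ x ≠ none) ∈ t.1 F

theorem Abs.mono {V : Type} {τ : V → TY 𝓕} {s t : TY 𝓕} (h : Abs τ s) (hst : le s t) :
    Abs τ t := fun F ρ h1 => hst F _ (h F ρ h1)

theorem abs_empty (t : TY 𝓕) (τ : Empty → TY 𝓕) : Abs τ t := by
  classical
  intro F ρ _
  convert (t.2 F).1 using 1
  ext x
  simp only [mem_filter, mem_univ, true_and, notMem_empty, iff_false, not_not]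
  rcases ρ x with _ | e
  · rfl
  · exact e.elim

theorem abs_oty {V : Type} {τ : V → TY 𝓕} {m n : ℕ} (h : Abs τ (kt m)) :
    Abs (oty (kt n) τ) (kt (n + m)) := by
  classical
  intro F ρ hρ
  have h1 : (univ.filter (fun x => ρ x = some none) : Finset (Fin F.1.1)) ∈
      (kt n : TY 𝓕).1 F := by
    have h0 : _ ∈ (kt n : TY 𝓕).1 F := hρ none
    convert h0 using 1
    ext x
    simp only [mem_filter, mem_univ, true_and]
  have h2 := h F (fun x => (ρ x).elim none id) (fun v => by
    have h3 : _ ∈ (τ v).1 F := hρ (some v)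
    convert h3 using 1
    ext x
    simp only [mem_filter, mem_univ, true_and]
    rcases ρ x with _ | (_ | w) <;> simp)
  have h3 := kt_union F _ _ h1 h2
  convert h3 using 1
  ext x
  simp only [mem_filter, mem_univ, true_and, mem_union]
  rcases ρ x with _ | (_ | w) <;> simp

end Pool.Agent.U291.KE
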