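import Mathlib
import Pool.Agent.U291.KE.Ty2

set_option autoImplicit false
set_option linter.unusedSectionVars false

/-! Folding of small blocks into a large block, and the reduction of signed sums. -/

namespace Pool.Agent.U291.KE

open Finset Pool.Agent.H98R2.Ev Pool.Agent.TH410.KV MvPolynomial

variable {𝓕 : Fam}

/-- If the block `none` absorbs the others, then only the neighbours of `none` matter. -/
theorem bad_dep {W : Type} (t : TY 𝓕) (σ : W → TY 𝓕) (hA : Abs σ t)
    (G₁ G₂ : SimpleGraph (Option W))
    (h1 : ∀ w, G₁.Adj none (some w) ↔ G₂.Adj none (some w))
    (h2 : ∀ w w', G₁.Adj none (some w) → G₁.Adj none (some w') →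
      G₁.Adj (some w) (some w') → G₂.Adj (some w) (some w')) :
    Bad (oty t σ) G₁ → Bad (oty t σ) G₂ := by
  classical
  rintro ⟨F, κ, hk1, hk2⟩
  let mv : Fin F.1.1 → Prop := fun x => ∃ w, κ x = some w ∧ ¬ G₁.Adj none (some w)
  have hmv : ∀ x w, ¬ mv x → κ x = some w → G₁.Adj none (some w) := by
    intro x w h hw
    by_contra hcon
    exact h ⟨w, hw, hcon⟩
  refine ⟨F, fun x => if mv x then none else κ x, fun v => ?_, fun x y hxy hne => ?_⟩
  · rcases v with _ | w
    · change _ ∈ t.1 F
      have e1 : (univ.filter (fun x => (if mv x then none else κ x) = none) :
          Finset (Fin F.1.1)) = univ.filter (fun x => κ x = none) ∪ univ.filter (fun x => mv x) := by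
        ext x
        simp only [mem_filter, mem_univ, true_and, mem_union]
        by_cases h : mv x
        · simp only [h, if_true, or_true]
        · simp only [h, if_false, or_false]
      have h3 : (univ.filter (fun x => κ x = none) : Finset (Fin F.1.1)) ∈ t.1 F := by
        have h0 : _ ∈ t.1 F := hk1 none
        convert h0 using 1
        ext x
        simp only [mem_filter, mem_univ, true_and]
      have h4 : (univ.filter (fun x => mv x) : Finset (Fin F.1.1)) ∈ t.1 F := by
        have h5 := hA F (fun x => if mv x then κ x else none) (fun v => by
          by_cases hv : G₁.Adj none (some v)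
          · convert ((σ v).2 F).1 using 1
            ext x
            simp only [mem_filter, mem_univ, true_and, notMem_empty, iff_false]
            by_cases h : mv x
            · simp only [h, if_true]
              intro hx
              obtain ⟨w, hw, hw2⟩ := h
              rw [hx] at hw
              rw [← Option.some_injective _ hw] at hw2
              exact hw2 hv
            · simp [h]
          · have h0 : _ ∈ (σ v).1 F := hk1 (some v)
            convert h0 using 1
            ext x
            simp only [mem_filter, mem_univ, true_and]
            by_cases h : mv x
            · simp only [h, if_true]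
            · simp only [h, if_false, reduceCtorEq, false_iff]
              intro hx
              exact h ⟨v, hx, hv⟩)
        convert h5 using 1
        ext x
        simp only [mem_filter, mem_univ, true_and]
        by_cases h : mv x
        · simp only [h, if_true, true_iff]
          obtain ⟨w, hw, _⟩ := h
          rw [hw]
          simp
        · simp [h]
      have h6 : (univ.filter (fun x => (if mv x then none else κ x) = none) :
          Finset (Fin F.1.1)) ∈ t.1 F := by
        rw [e1]
        refine (t.2 F).2 _ _ ?_ ?_ h3 h4
        · rw [Finset.disjoint_left]
          intro x hx hx'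
          simp only [mem_filter, mem_univ, true_and] at hx hx'
          obtain ⟨w, hw, _⟩ := hx'
          rw [hx] at hw
          simp at hw
        · intro x hx y hy hxy
          simp only [mem_filter, mem_univ, true_and] at hx hy
          obtain ⟨w, hw, hw2⟩ := hy
          have h7 := hk2 x y hxy (by rw [hx, hw]; simp)
          rw [hx, hw] at h7
          exact hw2 h7
      convert h6 using 1
      ext x
      simp only [mem_filter, mem_univ, true_and]
    · change _ ∈ (σ w).1 F
      by_cases hw : G₁.Adj none (some w)
      · have h0 : _ ∈ (σ w).1 F := hk1 (some w)
        convert h0 using 1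
        ext x
        simp only [mem_filter, mem_univ, true_and]
        by_cases h : mv x
        · simp only [h, if_true, reduceCtorEq, false_iff]
          intro hx
          obtain ⟨w', hw', hw2⟩ := h
          rw [hx] at hw'
          rw [← Option.some_injective _ hw'] at hw2
          exact hw2 hw
        · simp only [h, if_false]
      · convert ((σ w).2 F).1 using 1
        ext x
        simp only [mem_filter, mem_univ, true_and, notMem_empty, iff_false]
        by_cases h : mv x
        · simp [h]
        · simp only [h, if_false]
          intro hx
          exact h ⟨w, hx, hw⟩
  · by_cases hx : mv x <;> by_cases hy : mv y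
    · simp only [hx, hy, if_true, ne_eq, not_true_eq_false] at hne
    · simp only [hx, hy, if_true, if_false] at hne ⊢
      rcases hκ : κ y with _ | w
      · rw [hκ] at hne
        exact absurd rfl hne
      · exact (h1 w).1 (hmv y w hy hκ)
    · simp only [hx, hy, if_true, if_false] at hne ⊢
      rcases hκ : κ x with _ | w
      · rw [hκ] at hne
        exact absurd rfl hne
      · exact ((h1 w).1 (hmv x w hx hκ)).symm
    · simp only [hx, hy, if_false] at hne ⊢
      have h3 := hk2 x y hxy hne
      rcases hκx : κ x with _ | w <;> rcases hκy : κ y with _ | w'
      · rw [hκx, hκy] at hne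
        exact absurd rfl hne
      · exact (h1 w').1 (hmv y w' hy hκy)
      · exact ((h1 w).1 (hmv x w hx hκx)).symm
      · rw [hκx, hκy] at h3
        exact h2 w w' (hmv x w hx hκx) (hmv y w' hy hκy) h3

/-- Two blocks with complete joins to all others but for the small ones that can be folded. -/
theorem bad_merge {V : Type} (s t : TY 𝓕) (τ : V → TY 𝓕) (hB : Abs τ s)
    (G₁ : SimpleGraph (Option (Option V))) (G₂ : SimpleGraph (Option V))
    (hj : ∀ w, G₁.Adj none (some w))
    (h1 : ∀ a b, G₁.Adj (some a) (some b) ↔ G₂.Adj a b) :
    Bad (oty t (oty s τ)) G₁ ↔ Bad (oty (jo s t) τ) G₂ := by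
  classical
  constructor
  · rintro ⟨F, κ, hk1, hk2⟩
    let mv : Fin F.1.1 → Prop := fun x => ∃ v, κ x = some (some v) ∧ ¬ G₂.Adj none (some v)
    have hmv : ∀ x v, ¬ mv x → κ x = some (some v) → G₂.Adj none (some v) := by
      intro x v h hw
      by_contra hcon
      exact h ⟨v, hw, hcon⟩
    let κ' : Fin F.1.1 → Option V := fun x =>
      if mv x then none else (κ x).elim none id
    have hκn : ∀ x, κ' x = none ↔ (κ x = none ∨ κ x = some none ∨ mv x) := by
      intro x
      simp only [κ']
      by_cases h : mv x
      · simp [h]
      · simp only [h, if_false, or_false]
        rcases κ x with _ | (_ | v) <;> simp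
    have hκs : ∀ x v, κ' x = some v ↔ (κ x = some (some v) ∧ ¬ mv x) := by
      intro x v
      simp only [κ']
      by_cases h : mv x
      · simp [h]
      · simp only [h, if_false, not_false_eq_true, and_true]
        rcases κ x with _ | (_ | v) <;> simp
    refine ⟨F, κ', fun v => ?_, fun x y hxy hne => ?_⟩
    · rcases v with _ | v
      · change _ ∈ (jo s t).1 F
        have h3 : (univ.filter (fun x => κ x = none) : Finset (Fin F.1.1)) ∈ t.1 F := by
          have h0 : _ ∈ t.1 F := hk1 none
          convert h0 using 1
          ext x
          simp only [mem_filter, mem_univ, true_and]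
        have h4 : (univ.filter (fun x => κ x = some none) : Finset (Fin F.1.1)) ∈ s.1 F := by
          have h0 : _ ∈ s.1 F := hk1 (some none)
          convert h0 using 1
          ext x
          simp only [mem_filter, mem_univ, true_and]
        have h5 : (univ.filter (fun x => mv x) : Finset (Fin F.1.1)) ∈ s.1 F := by
          have h6 := hB F (fun x => if mv x then (κ x).elim none id else none) (fun v => by
            by_cases hv : G₂.Adj none (some v)
            · convert ((τ v).2 F).1 using 1
              ext x
              simp only [mem_filter, mem_univ, true_and, notMem_empty, iff_false]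
              by_cases h : mv x
              · simp only [h, if_true]
                intro hx
                obtain ⟨w, hw, hw2⟩ := h
                rw [hw] at hx
                simp only [Option.elim, id, Option.some.injEq] at hx
                rw [hx] at hw2
                exact hw2 hv
              · simp [h]
            · have h0 : _ ∈ (τ v).1 F := hk1 (some (some v))
              convert h0 using 1
              ext x
              simp only [mem_filter, mem_univ, true_and]
              by_cases h : mv x
              · simp only [h, if_true]
                rcases κ x with _ | (_ | v) <;> simp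
              · simp only [h, if_false, reduceCtorEq, false_iff]
                intro hx
                exact h ⟨v, hx, hv⟩)
          convert h6 using 1
          ext x
          simp only [mem_filter, mem_univ, true_and]
          by_cases h : mv x
          · simp only [h, if_true, true_iff]
            obtain ⟨w, hw, _⟩ := h
            rw [hw]
            simp
          · simp [h]
        have h7 : (univ.filter (fun x => κ x = some none) ∪ univ.filter (fun x => mv x) :
            Finset (Fin F.1.1)) ∈ s.1 F := by
          refine (s.2 F).2 _ _ ?_ ?_ h4 h5
          · rw [Finset.disjoint_left]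
            intro x hx hx'
            simp only [mem_filter, mem_univ, true_and] at hx hx'
            obtain ⟨w, hw, _⟩ := hx'
            rw [hx] at hw
            simp at hw
          · intro x hx y hy hxy
            simp only [mem_filter, mem_univ, true_and] at hx hy
            obtain ⟨w, hw, hw2⟩ := hy
            have h8 := hk2 x y hxy (by rw [hx, hw]; simp)
            rw [hx, hw, h1] at h8
            exact hw2 h8
        refine ⟨_, ?_, h7, ?_⟩
        · intro x hx
          simp only [mem_filter, mem_univ, true_and, mem_union] at hx ⊢
          rw [hκn]
          tauto
        · convert h3 using 1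
          ext x
          simp only [mem_filter, mem_univ, true_and, mem_union, mem_sdiff, hκn]
          constructor
          · rintro ⟨h9 | h9 | h9, h10⟩
            · exact h9
            · exact absurd (Or.inl h9) h10
            · exact absurd (Or.inr h9) h10
          · intro h9
            refine ⟨Or.inl h9, ?_⟩
            rintro (h10 | ⟨w, h10, _⟩)
            · rw [h9] at h10; simp at h10
            · rw [h9] at h10; simp at h10
      · change _ ∈ (τ v).1 F
        by_cases hv : G₂.Adj none (some v)
        · have h0 : _ ∈ (τ v).1 F := hk1 (some (some v))
          convert h0 using 1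
          ext x
          simp only [mem_filter, mem_univ, true_and, hκs]
          constructor
          · exact fun h => h.1
          · intro h
            refine ⟨h, ?_⟩
            rintro ⟨w, hw, hw2⟩
            rw [h] at hw
            simp only [Option.some.injEq] at hw
            rw [← hw] at hw2
            exact hw2 hv
        · convert ((τ v).2 F).1 using 1
          ext x
          simp only [mem_filter, mem_univ, true_and, notMem_empty, iff_false, hκs]
          rintro ⟨h, h2⟩
          exact h2 ⟨v, h, hv⟩
    · rcases hx : κ' x with _ | a <;> rcases hy : κ' y with _ | b
      · rw [hx, hy] at hne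
        exact absurd rfl hne
      · rw [hκs] at hy
        exact hmv y b hy.2 hy.1
      · rw [hκs] at hx
        exact (hmv x a hx.2 hx.1).symm
      · rw [hx, hy] at hne
        rw [hκs] at hx hy
        have h8 := hk2 x y hxy (by rw [hx.1, hy.1]; simpa using hne)
        rw [hx.1, hy.1, h1] at h8
        exact h8
  · rintro ⟨F, κ, hk1, hk2⟩
    obtain ⟨A, hA, hA1, hA2⟩ : _ ∈ (jo s t).1 F := hk1 none
    have hA' : ∀ x ∈ A, κ x = none := by
      intro x hx
      have := hA hx
      simpa using this
    let κ' : Fin F.1.1 → Option (Option V) := fun x =>
      (κ x).elim (if x ∈ A then some none else none) (fun v => some (some v))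
    have hκ1 : ∀ x, κ' x = none ↔ κ x = none ∧ x ∉ A := by
      intro x
      simp only [κ']
      rcases κ x with _ | v
      · by_cases h : x ∈ A <;> simp [h]
      · simp
    have hκ2 : ∀ x, κ' x = some none ↔ x ∈ A := by
      intro x
      simp only [κ']
      rcases h2 : κ x with _ | v
      · by_cases h : x ∈ A <;> simp [h]
      · have : x ∉ A := fun h => by rw [hA' x h] at h2; simp at h2
        simp [this]
    have hκ3 : ∀ x v, κ' x = some (some v) ↔ κ x = some v := by
      intro x v
      simp only [κ']
      rcases h2 : κ x with _ | v'
      · by_cases h : x ∈ A <;> simp [h]
      · simp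
    refine ⟨F, κ', fun v => ?_, fun x y hxy hne => ?_⟩
    · rcases v with _ | (_ | v)
      · change _ ∈ t.1 F
        convert hA2 using 1
        ext x
        simp only [mem_filter, mem_univ, true_and, mem_sdiff, hκ1]
      · change _ ∈ s.1 F
        convert hA1 using 1
        ext x
        simp only [mem_filter, mem_univ, true_and, hκ2]
      · change _ ∈ (τ v).1 F
        have h0 : _ ∈ (τ v).1 F := hk1 (some v)
        convert h0 using 1
        ext x
        simp only [mem_filter, mem_univ, true_and, hκ3]
    · rcases hx : κ' x with _ | a <;> rcases hy : κ' y with _ | b
      · rw [hx, hy] at hne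
        exact absurd rfl hne
      · exact hj b
      · exact (hj a).symm
      · rw [h1]
        rw [hx, hy] at hne
        have hab : a ≠ b := fun h => hne (by rw [h])
        rcases a with _ | a <;> rcases b with _ | b
        · exact absurd rfl hab
        · rw [hκ2] at hx
          rw [hκ3] at hy
          have h8 := hk2 x y hxy (by rw [hA' x hx, hy]; simp)
          rw [hA' x hx, hy] at h8
          exact h8
        · rw [hκ3] at hx
          rw [hκ2] at hy
          have h8 := hk2 x y hxy (by rw [hA' y hy, hx]; simp)
          rw [hA' y hy, hx] at h8
          exact h8
        · rw [hκ3] at hx hy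
          have h8 := hk2 x y hxy (by rw [hx, hy]; exact hab)
          rw [hx, hy] at h8
          exact h8

end Pool.Agent.U291.KE
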