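import Mathlib
import Pool.Agent.U291.KE.Fold

set_option autoImplicit false
set_option linter.unusedSectionVars false

/-! Reduction of the signed number of graphs: a block and a smaller one are joined. -/

namespace Pool.Agent.U291.KE

open Finset Pool.Agent.H98R2.Ev Pool.Agent.TH410.KV MvPolynomial

variable {𝓕 : Fam}

section Edges

variable {W : Type} [DecidableEq W]

/-- the pair of `none` and `some w` -/
def sw (w : W) : EV (Option W) := ⟨s(none, some w), by simp⟩

/-- pairs of `W` as pairs of `Option W` -/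
def em (e : EV W) : EV (Option W) := ⟨Sym2.map some e.1, by
  intro h
  apply e.2
  revert h
  refine Sym2.ind (fun a b => ?_) e.1
  simp [Sym2.map_mk]⟩

theorem em_inj : Function.Injective (em : EV W → EV (Option W)) := by
  intro a b h
  apply Subtype.ext
  have h1 : Sym2.map some a.1 = Sym2.map some b.1 := congrArg Subtype.val h
  exact Sym2.map.injective (Option.some_injective W) h1

theorem sw_ne_em (w : W) (e : EV W) : sw w ≠ em e := by
  intro h
  have h1 : (s(none, some w) : Sym2 (Option W)) = Sym2.map some e.1 := congrArg Subtype.val h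
  revert h1
  refine Sym2.ind (fun a b => ?_) e.1
  intro h1
  rw [Sym2.map_mk, Sym2.eq_iff] at h1
  simp at h1

theorem sw_inj : Function.Injective (sw : W → EV (Option W)) := by
  intro a b h
  have h1 : (s(none, some a) : Sym2 (Option W)) = s(none, some b) := congrArg Subtype.val h
  rw [Sym2.eq_iff] at h1
  simpa using h1

theorem ev_cases (e : EV (Option W)) : (∃ w, e = sw w) ∨ ∃ e', e = em e' := by
  obtain ⟨e, he⟩ := e
  induction e using Sym2.ind with
  | _ x y =>
    rcases x with _ | a <;> rcases y with _ | b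
    · exact absurd (Sym2.mk_isDiag_iff.2 rfl) he
    · exact Or.inl ⟨b, rfl⟩
    · exact Or.inl ⟨a, Subtype.ext Sym2.eq_swap⟩
    · refine Or.inr ⟨⟨s(a, b), fun h => he ?_⟩, rfl⟩
      rw [Sym2.mk_isDiag_iff] at h ⊢
      rw [h]

theorem adj_sw (S : Finset (EV (Option W))) (w : W) :
    (toG S).Adj none (some w) ↔ sw w ∈ S := by
  rw [toG_adj]
  constructor
  · rintro ⟨_, h⟩; exact h
  · intro h; exact ⟨by simp, h⟩

theorem adj_em (S : Finset (EV (Option W))) (a b : W) :
    (toG S).Adj (some a) (some b) ↔ ∃ h : ¬ (s(a, b) : Sym2 W).IsDiag, em ⟨s(a, b), h⟩ ∈ S := by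
  rw [toG_adj]
  constructor
  · rintro ⟨h, h1⟩
    refine ⟨fun h2 => h ?_, h1⟩
    rw [Sym2.mk_isDiag_iff] at h2 ⊢
    rw [h2]
  · rintro ⟨h, h1⟩
    refine ⟨fun h2 => h ?_, h1⟩
    rw [Sym2.mk_isDiag_iff] at h2 ⊢
    exact Option.some_injective _ h2

end Edges

/-- toggling one element changes the sign -/
theorem sign_toggle {α R : Type} [DecidableEq α] [CommRing R] (S : Finset α) (e : α) :
    ((-1 : R)) ^ (symmDiff S {e}).card = - (-1) ^ S.card := by
  by_cases h : e ∈ S
  · have h1 : symmDiff S {e} = S.erase e := by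
      ext x
      simp only [mem_symmDiff, mem_singleton, mem_erase]
      constructor
      · rintro (⟨h1, h2⟩ | ⟨h1, h2⟩)
        · exact ⟨h2, h1⟩
        · exact absurd (h1 ▸ h) h2
      · rintro ⟨h1, h2⟩
        exact Or.inl ⟨h2, h1⟩
    rw [h1, card_erase_of_mem h]
    have h2 : 0 < S.card := card_pos.2 ⟨e, h⟩
    obtain ⟨m, hm⟩ : ∃ m, S.card = m + 1 := ⟨S.card - 1, by omega⟩
    rw [hm, pow_succ]
    simp
  · have h1 : symmDiff S {e} = insert e S := by
      ext x
      simp only [mem_symmDiff, mem_singleton, mem_insert]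
      constructor
      · rintro (⟨h1, _⟩ | ⟨h1, _⟩)
        · exact Or.inr h1
        · exact Or.inl h1
      · rintro (h1 | h1)
        · exact Or.inr ⟨h1, h1 ▸ h⟩
        · exact Or.inl ⟨h1, fun h2 => h (h2 ▸ h1)⟩
    rw [h1, card_insert_of_notMem h, pow_succ]
    ring

section Step

variable {V : Type} [Fintype V] [DecidableEq V]

open Classical in
/-- **Step.** -/
theorem NN_step [Nonempty V] (q : ℕ) (s t : TY 𝓕) (τ : V → TY 𝓕) (hA : Abs (oty s τ) t)
    (hB : Abs τ s) :
    NN q (oty t (oty s τ)) = (-1) ^ (Fintype.card V + 1) * NN q (oty (jo s t) τ) := by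
  set f : Finset (EV (Option (Option V))) → ZMod q :=
    fun S => ind q (oty t (oty s τ)) (toG S) * (-1) ^ S.card with hf
  -- the choice of the pair that is toggled
  let yy : Set (Option V) → V := fun N =>
    if h : ∃ v, some v ∉ N then h.choose else Classical.arbitrary V
  have hyy : ∀ N : Set (Option V), (∃ w, w ∉ N) → none ∉ N ∨ some (yy N) ∉ N := by
    intro N hN
    by_cases h : ∃ v, some v ∉ N
    · right
      simp only [yy, dif_pos h]
      exact h.choose_spec
    · left
      obtain ⟨w, hw⟩ := hN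
      rcases w with _ | v
      · exact hw
      · exact absurd ⟨v, hw⟩ h
  let Nb : Finset (EV (Option (Option V))) → Set (Option V) := fun S => {w | sw w ∈ S}
  let tg : Set (Option V) → EV (Option (Option V)) := fun N =>
    em ⟨s(none, some (yy N)), by simp⟩
  let g : Finset (EV (Option (Option V))) → Finset (EV (Option (Option V))) := fun S =>
    symmDiff S {tg (Nb S)}
  have hmem : ∀ (S : Finset (EV (Option (Option V)))) (N : Set (Option V)) (e : EV (Option (Option V))),
      e ≠ tg N → (e ∈ symmDiff S {tg N} ↔ e ∈ S) := by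
    intro S N e he
    simp only [mem_symmDiff, mem_singleton]
    constructor
    · rintro (⟨h1, _⟩ | ⟨h1, _⟩)
      · exact h1
      · exact absurd h1 he
    · intro h
      exact Or.inl ⟨h, he⟩
  have hNb : ∀ S, Nb (g S) = Nb S := by
    intro S
    ext w
    exact hmem S _ _ (sw_ne_em w _)
  have hgg : ∀ S, g (g S) = S := by
    intro S
    show symmDiff (g S) {tg (Nb (g S))} = S
    rw [hNb]
    show symmDiff (symmDiff S {tg (Nb S)}) {tg (Nb S)} = S
    rw [symmDiff_symmDiff_cancel_right]
  have hbad : ∀ S, (∃ w, w ∉ Nb S) → Bad (oty t (oty s τ)) (toG S) →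
      Bad (oty t (oty s τ)) (toG (g S)) := by
    intro S hS
    refine bad_dep t (oty s τ) hA _ _ (fun w => ?_) (fun w w' h1 h2 h3 => ?_)
    · rw [adj_sw, adj_sw]
      exact (hmem S _ _ (sw_ne_em w _)).symm
    · rw [adj_sw] at h1 h2
      rw [adj_em] at h3 ⊢
      obtain ⟨h, h3⟩ := h3
      refine ⟨h, (hmem S _ _ ?_).2 h3⟩
      intro h4
      have h5 : (s(w, w') : Sym2 (Option V)) = s(none, some (yy (Nb S))) :=
        congrArg Subtype.val (em_inj h4)
      rcases hyy _ hS with h6 | h6
      · rcases Sym2.eq_iff.1 h5 with ⟨h7, _⟩ | ⟨_, h7⟩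
        · exact h6 (h7 ▸ h1)
        · exact h6 (h7 ▸ h2)
      · rcases Sym2.eq_iff.1 h5 with ⟨_, h7⟩ | ⟨h7, _⟩
        · exact h6 (h7 ▸ h2)
        · exact h6 (h7 ▸ h1)
  have hfg : ∀ S, (∃ w, w ∉ Nb S) → f S + f (g S) = 0 := by
    intro S hS
    have h1 : ind q (oty t (oty s τ)) (toG (g S)) = ind q (oty t (oty s τ)) (toG S) := by
      apply ind_congr
      constructor
      · intro h
        have := hbad (g S) (by rw [hNb]; exact hS) h
        rwa [hgg] at this
      · exact hbad S hS
    simp only [hf]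
    rw [h1]
    have h2 : ((-1 : ZMod q)) ^ (g S).card = - (-1) ^ S.card := sign_toggle S _
    rw [h2]
    ring
  have hzero : ∑ S ∈ univ.filter (fun S => ∃ w, w ∉ Nb S), f S = 0 := by
    refine Finset.sum_involution (fun S _ => g S) ?_ ?_ ?_ ?_
    · intro S hS
      exact hfg S (mem_filter.1 hS).2
    · intro S _ _ h
      have h1 : symmDiff S {tg (Nb S)} = S := h
      rw [symmDiff_eq_left] at h1
      exact absurd h1 (singleton_ne_empty _)
    · intro S hS
      rw [mem_filter] at hS ⊢
      refine ⟨mem_univ _, ?_⟩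
      rw [hNb]
      exact hS.2
    · intro S _
      exact hgg S
  have hsplit : NN q (oty t (oty s τ)) =
      ∑ S ∈ univ.filter (fun S => ¬ ∃ w, w ∉ Nb S), f S := by
    have h1 := Finset.sum_filter_add_sum_filter_not univ (fun S => ∃ w, w ∉ Nb S) f
    rw [hzero, zero_add] at h1
    exact h1.symm
  rw [hsplit]
  unfold NN
  rw [Finset.mul_sum]
  -- the bijection
  let emE : EV (Option V) ↪ EV (Option (Option V)) := ⟨em, em_inj⟩
  let swE : Option V ↪ EV (Option (Option V)) := ⟨sw, sw_inj⟩
  have hdisj : ∀ S' : Finset (EV (Option V)),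
      Disjoint (S'.map emE) ((univ : Finset (Option V)).map swE) := by
    intro S'
    rw [Finset.disjoint_left]
    intro e he he'
    obtain ⟨a, _, rfl⟩ := mem_map.1 he
    obtain ⟨b, _, h⟩ := mem_map.1 he'
    exact sw_ne_em b a h
  let up : Finset (EV (Option V)) → Finset (EV (Option (Option V))) := fun S' =>
    (S'.map emE).disjUnion ((univ : Finset (Option V)).map swE) (hdisj S')
  have hup1 : ∀ S' w, sw w ∈ up S' := by
    intro S' w
    rw [mem_disjUnion]
    exact Or.inr (mem_map_of_mem swE (mem_univ w))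
  have hup2 : ∀ S' e, em e ∈ up S' ↔ e ∈ S' := by
    intro S' e
    rw [mem_disjUnion]
    constructor
    · rintro (h | h)
      · obtain ⟨a, ha, h⟩ := mem_map.1 h
        rw [← em_inj h]
        exact ha
      · obtain ⟨a, _, h⟩ := mem_map.1 h
        exact absurd h (sw_ne_em a e)
    · intro h
      exact Or.inl (mem_map_of_mem emE h)
  have hcardup : ∀ S', (up S').card = S'.card + (Fintype.card V + 1) := by
    intro S'
    rw [card_disjUnion, card_map, card_map, card_univ, Fintype.card_option]
  symm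
  refine Finset.sum_bij (fun S' _ => up S') ?_ ?_ ?_ ?_
  · intro S' _
    rw [mem_filter]
    refine ⟨mem_univ _, ?_⟩
    rintro ⟨w, hw⟩
    exact hw (hup1 S' w)
  · intro S₁ _ S₂ _ h
    ext e
    rw [← hup2 S₁, ← hup2 S₂, h]
  · intro S hS
    rw [mem_filter] at hS
    have hall : ∀ w, sw w ∈ S := by
      intro w
      by_contra hcon
      exact hS.2 ⟨w, hcon⟩
    refine ⟨univ.filter (fun e => em e ∈ S), mem_univ _, ?_⟩
    ext e
    rcases ev_cases e with ⟨w, rfl⟩ | ⟨e', rfl⟩
    · exact ⟨fun _ => hall w, fun _ => hup1 _ w⟩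
    · rw [hup2, mem_filter]
      exact ⟨fun h => h.2, fun h => ⟨mem_univ _, h⟩⟩
  · intro S' _
    simp only [hf]
    rw [hcardup, pow_add]
    have h1 : ind q (oty t (oty s τ)) (toG (up S')) = ind q (oty (jo s t) τ) (toG S') := by
      apply ind_congr
      refine bad_merge s t τ hB _ _ (fun w => ?_) (fun a b => ?_)
      · rw [adj_sw]
        exact hup1 S' w
      · rw [adj_em, toG_adj]
        constructor
        · rintro ⟨h, h2⟩
          exact ⟨h, (hup2 S' _).1 h2⟩
        · rintro ⟨h, h2⟩
          exact ⟨h, (hup2 S' _).2 h2⟩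
    rw [h1]
    ring

end Step

end Pool.Agent.U291.KE
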