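import Mathlib
import Pool.Agent.U291.KE.Step

set_option autoImplicit false
set_option linter.unusedSectionVars false

/-! The functional on products of complete multipartite blocks and one large block. -/

namespace Pool.Agent.U291.KE

open Finset Pool.Agent.H98R2.Ev Pool.Agent.TH410.KV MvPolynomial

variable {𝓕 : Fam}

open Classical in
/-- 0 if a member fits into the block, 1 otherwise -/
noncomputable def gd (q : ℕ) (t : TY 𝓕) : ZMod q := if ∃ F : 𝓕, univ ∈ t.1 F then 0 else 1

theorem gd_zero (q : ℕ) (t : TY 𝓕) (F : 𝓕) (h : univ ∈ t.1 F) : gd q t = 0 := by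
  unfold gd
  rw [if_pos ⟨F, h⟩]

theorem gd_one (q : ℕ) (t : TY 𝓕) (h : ∀ F : 𝓕, univ ∉ t.1 F) : gd q t = 1 := by
  unfold gd
  rw [if_neg (by rintro ⟨F, hF⟩; exact h F hF)]

theorem ind_gd (q : ℕ) {V : Type} (τ : V → TY 𝓕) (G : SimpleGraph V) (t : TY 𝓕)
    (h : Bad τ G ↔ ∃ F : 𝓕, univ ∈ t.1 F) : ind q τ G = gd q t := by
  unfold ind gd
  by_cases h1 : Bad τ G
  · rw [if_pos h1, if_pos (h.1 h1)]
  · rw [if_neg h1, if_neg (fun h2 => h1 (h.2 h2))]

section Lbs

variable (q : ℕ) [Fact q.Prime]

theorem Lb_gd (t : TY 𝓕) : Lb 𝓕 q (cl q t) = gd q t := by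
  by_cases h : ∃ F : 𝓕, univ ∈ t.1 F
  · obtain ⟨F, hF⟩ := h
    rw [gd_zero q t F hF, cl_zero q t F hF, map_zero]
  · push Not at h
    rw [gd_one q t h, Lb_cl q t h]

theorem Lb_step {V : Type} [Fintype V] [DecidableEq V] [Nonempty V] (s t : TY 𝓕) (τ : V → TY 𝓕)
    (hA : Abs (oty s τ) t) (hB : Abs τ s) :
    Lb 𝓕 q (cl q t * (cl q s * ∏ v, cl q (τ v))) =
      (-1) ^ (Fintype.card V + 1) * Lb 𝓕 q (cl q (jo s t) * ∏ v, cl q (τ v)) := by
  have h1 : cl q t * (cl q s * ∏ v, cl q (τ v)) =
      ∏ v : Option (Option V), cl q (oty t (oty s τ) v) := by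
    rw [Fintype.prod_option, Fintype.prod_option]
    rfl
  have h2 : cl q (jo s t) * ∏ v, cl q (τ v) = ∏ v : Option V, cl q (oty (jo s t) τ v) := by
    rw [Fintype.prod_option]
    rfl
  rw [h1, h2, Lb_prod, Lb_prod, NN_step q s t τ hA hB]

theorem bad_two_empty (s t : TY 𝓕) (hst : le s t) (τ : Empty → TY 𝓕)
    (G : SimpleGraph (Option (Option Empty))) (hG : ∀ x y, ¬ G.Adj x y) :
    Bad (oty t (oty s τ)) G ↔ ∃ F : 𝓕, univ ∈ t.1 F := by
  classical
  constructor
  · rintro ⟨F, κ, h1, h2⟩
    refine ⟨F, ?_⟩
    have h3 : (univ.filter (fun x => κ x = none) : Finset (Fin F.1.1)) ∈ t.1 F := by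
      have h0 : _ ∈ t.1 F := h1 none
      convert h0 using 1
      ext x
      simp only [mem_filter, mem_univ, true_and]
    have h4 : (univ.filter (fun x => κ x = some none) : Finset (Fin F.1.1)) ∈ t.1 F := by
      have h0 : _ ∈ s.1 F := h1 (some none)
      have h0' := hst F _ h0
      convert h0' using 1
      ext x
      simp only [mem_filter, mem_univ, true_and]
    have h5 := (t.2 F).2 _ _ (by
      rw [Finset.disjoint_left]
      intro x hx hx'
      simp only [mem_filter, mem_univ, true_and] at hx hx'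
      rw [hx] at hx'
      simp at hx') (by
      intro x hx y hy hxy
      simp only [mem_filter, mem_univ, true_and] at hx hy
      exact hG _ _ (h2 x y hxy (by rw [hx, hy]; simp))) h3 h4
    convert h5 using 1
    ext x
    simp only [mem_filter, mem_univ, true_and, mem_union, true_iff]
    rcases κ x with _ | (_ | e)
    · exact Or.inl rfl
    · exact Or.inr rfl
    · exact e.elim
  · rintro ⟨F, hF⟩
    exact bad_of_univ _ _ none F hF

theorem Lb_base (s t : TY 𝓕) (hst : le s t) :
    Lb 𝓕 q (cl q t * cl q s) = gd q t - gd q (jo s t) := by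
  classical
  let τ : Empty → TY 𝓕 := fun e => e.elim
  have h1 : cl q t * cl q s = ∏ v : Option (Option Empty), cl q (oty t (oty s τ) v) := by
    rw [Fintype.prod_option, Fintype.prod_option]
    simp only [univ_eq_empty, prod_empty, mul_one]
    rfl
  rw [h1, Lb_prod]
  unfold NN
  have huniq : ∀ e : EV (Option (Option Empty)), e = sw none := by
    intro e
    rcases ev_cases e with ⟨w, rfl⟩ | ⟨e', rfl⟩
    · rcases w with _ | w
      · rfl
      · exact w.elim
    · rcases ev_cases e' with ⟨w, rfl⟩ | ⟨e'', rfl⟩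
      · exact w.elim
      · obtain ⟨e'', h⟩ := e''
        induction e'' using Sym2.ind with
        | _ x y => exact x.elim
  have hu : (univ : Finset (Finset (EV (Option (Option Empty))))) = {∅, {sw none}} := by
    ext S
    simp only [mem_univ, mem_insert, mem_singleton, true_iff]
    by_cases h : sw none ∈ S
    · right
      ext e
      rw [huniq e]
      simp [h]
    · left
      ext e
      rw [huniq e]
      simp [h]
  rw [hu, sum_pair (by
    intro h
    exact absurd h.symm (singleton_ne_empty _))]
  have e1 : ind q (oty t (oty s τ)) (toG (∅ : Finset (EV (Option (Option Empty))))) = gd q t := by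
    apply ind_gd
    apply bad_two_empty s t hst τ
    intro x y h
    rw [toG_adj] at h
    obtain ⟨_, h⟩ := h
    simp at h
  have e2 : ind q (oty t (oty s τ)) (toG ({sw none} : Finset (EV (Option (Option Empty))))) =
      gd q (jo s t) := by
    apply ind_gd
    rw [bad_merge s t τ (abs_empty s τ) _ (⊥ : SimpleGraph (Option Empty)) ?_ ?_]
    · have h3 : oty (jo s t) τ = fun _ : Option Empty => jo s t := by
        funext v
        rcases v with _ | v
        · rfl
        · exact v.elim
      rw [h3, bad_unit]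
    · intro w
      rw [adj_sw]
      rcases w with _ | w
      · exact mem_singleton_self _
      · exact w.elim
    · intro a b
      have hab : a = b := Subsingleton.elim _ _
      subst hab
      simp
  rw [e1, e2, card_empty, card_singleton]
  ring

end Lbs

end Pool.Agent.U291.KE
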