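import Mathlib
import Pool.Agent.U291.KE.Ring2

set_option autoImplicit false
set_option linter.unusedSectionVars false

/-! Products of complete multipartite blocks whose sizes are distinct powers of two. -/

namespace Pool.Agent.U291.KE

open Finset Pool.Agent.H98R2.Ev Pool.Agent.TH410.KV MvPolynomial

variable {𝓕 : Fam}

/-- the sum of the powers of two -/
def Sm (L : List ℕ) : ℕ := (L.map (fun i => 2 ^ i)).sum

@[simp] theorem Sm_nil : Sm [] = 0 := rfl

@[simp] theorem Sm_cons (a : ℕ) (L : List ℕ) : Sm (a :: L) = 2 ^ a + Sm L := by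
  simp [Sm]

/-- every power of two is at least the sum of the later ones -/
def SD : List ℕ → Prop
  | [] => True
  | a :: L => Sm L ≤ 2 ^ a ∧ SD L

theorem exists_digits (m : ℕ) : ∃ L : List ℕ, Sm L = m ∧ SD L := by
  induction m using Nat.strong_induction_on with
  | _ m ih =>
    rcases Nat.eq_zero_or_pos m with rfl | hm
    · exact ⟨[], rfl, trivial⟩
    · set a := Nat.log 2 m with ha
      have h1 : 2 ^ a ≤ m := Nat.pow_log_le_self 2 (by omega)
      have h2 : m < 2 ^ (a + 1) := Nat.lt_pow_succ_log_self (by norm_num) m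
      rw [pow_succ] at h2
      have h3 : 0 < 2 ^ a := by positivity
      obtain ⟨L, hL1, hL2⟩ := ih (m - 2 ^ a) (by omega)
      exact ⟨a :: L, by rw [Sm_cons, hL1]; omega, by rw [hL1]; omega, hL2⟩

theorem Sm_take_le (L : List ℕ) (k : ℕ) : Sm (L.take k) ≤ Sm L := by
  induction L generalizing k with
  | nil => simp
  | cons a L ih =>
    rcases k with _ | k
    · simp
    · rw [List.take_succ_cons, Sm_cons, Sm_cons]
      have := ih k
      omega

theorem SD_take (L : List ℕ) (k : ℕ) (h : SD L) : SD (L.take k) := by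
  induction L generalizing k with
  | nil => simpa using h
  | cons a L ih =>
    rcases k with _ | k
    · exact trivial
    · rw [List.take_succ_cons]
      exact ⟨(Sm_take_le L k).trans h.1, ih k h.2⟩

/-- the product of the classes of the blocks -/
noncomputable def PP (𝓕 : Fam) (L : List ℕ) : AA 𝓕 2 :=
  (L.map (fun i => cl 2 (kt (2 ^ i) : TY 𝓕))).prod

theorem PP_cons (a : ℕ) (L : List ℕ) : PP 𝓕 (a :: L) = cl 2 (kt (2 ^ a)) * PP 𝓕 L := by
  simp [PP]

theorem blocks (L : List ℕ) : ∃ (V : Type) (_ : Fintype V) (_ : DecidableEq V) (τ : V → TY 𝓕),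
    (∏ v, cl 2 (τ v) = PP 𝓕 L) ∧ (L ≠ [] → Nonempty V) ∧ Abs τ (kt (Sm L)) := by
  induction L with
  | nil =>
    refine ⟨Empty, inferInstance, inferInstance, fun e => e.elim, ?_, fun h => absurd rfl h,
      abs_empty _ _⟩
    simp [PP]
  | cons a L ih =>
    obtain ⟨V, i1, i2, τ, h1, h2, h3⟩ := ih
    refine ⟨Option V, inferInstance, inferInstance, oty (kt (2 ^ a)) τ, ?_, fun _ => inferInstance,
      ?_⟩
    · rw [Fintype.prod_option, PP_cons, ← h1]
      rfl
    · rw [Sm_cons]
      exact abs_oty h3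

theorem neg_one_two' : (-1 : ZMod 2) = 1 := by decide

theorem Lb_list (L : List ℕ) : ∀ t : TY 𝓕, L ≠ [] → SD L → le (kt (Sm L)) t →
    Lb 𝓕 2 (cl 2 t * PP 𝓕 L) =
      gd 2 (jo (kt (Sm L.dropLast)) t) + gd 2 (jo (kt (Sm L)) t) := by
  induction L with
  | nil => intro t h; exact absurd rfl h
  | cons a L ih =>
    intro t _ hSD hle
    rcases hL : L with _ | ⟨b, L'⟩
    · subst hL
      rw [PP_cons]
      have h1 : PP 𝓕 [] = 1 := by simp [PP]
      have h2 : le (kt (2 ^ a)) t := by
        have : Sm [a] = 2 ^ a := by simp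
        rwa [this] at hle
      rw [h1, mul_one, Lb_base 2 _ _ h2]
      simp only [List.dropLast_singleton, Sm_nil, Sm_cons, add_zero]
      rw [jo_zero, sub_eq_add_neg]
      congr 1
      rw [← neg_one_mul, neg_one_two', one_mul]
    · rw [← hL]
      have hne : L ≠ [] := by rw [hL]; exact List.cons_ne_nil _ _
      obtain ⟨V, i1, i2, τ, h1, h2, h3⟩ := blocks (𝓕 := 𝓕) L
      have hV : Nonempty V := h2 hne
      rw [PP_cons, ← h1]
      rw [Lb_step 2 (kt (2 ^ a)) t τ (by
        have := (abs_oty (n := 2 ^ a) h3).mono (t := t)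
        rw [Sm_cons] at hle
        exact this hle) (h3.mono (kt_mono hSD.1))]
      rw [neg_one_two', one_pow, one_mul, h1]
      rw [ih (jo (kt (2 ^ a)) t) hne hSD.2
        (le_trans' (kt_mono hSD.1) (le_jo_left _ _))]
      rw [jo_jo, jo_jo, List.dropLast_cons_of_ne_nil hne, Sm_cons, Sm_cons, add_comm (2 ^ a),
        add_comm (2 ^ a)]

theorem add_self_two (a : ZMod 2) : a + a = 0 := by
  revert a
  decide

/-- the telescoping combination -/
noncomputable def TT (𝓕 : Fam) (L : List ℕ) : AA 𝓕 2 :=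
  ∑ k ∈ range L.length, PP 𝓕 (L.take (k + 1))

theorem Lb_TT (L : List ℕ) (t : TY 𝓕) (hSD : SD L) (hle : le (kt (Sm L)) t) :
    Lb 𝓕 2 (cl 2 t * TT 𝓕 L) = gd 2 t + gd 2 (jo (kt (Sm L)) t) := by
  unfold TT
  rw [Finset.mul_sum, map_sum]
  have key : ∀ r ≤ L.length, ∑ k ∈ range r, Lb 𝓕 2 (cl 2 t * PP 𝓕 (L.take (k + 1))) =
      gd 2 t + gd 2 (jo (kt (Sm (L.take r))) t) := by
    intro r
    induction r with
    | zero =>
      intro _
      rw [sum_range_zero, List.take_zero, Sm_nil, jo_zero, add_self_two]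
    | succ r ih =>
      intro hr
      rw [sum_range_succ, ih (by omega)]
      have hne : L.take (r + 1) ≠ [] := by
        intro h
        have := congrArg List.length h
        rw [List.length_take, List.length_nil] at this
        omega
      rw [Lb_list (L.take (r + 1)) t hne (SD_take L _ hSD)
        (le_trans' (kt_mono (Sm_take_le L _)) hle)]
      have h1 : (L.take (r + 1)).dropLast = L.take r := by
        rw [List.dropLast_eq_take, List.length_take, min_eq_left hr, Nat.add_sub_cancel,
          List.take_take, min_eq_left (Nat.le_succ r)]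
      rw [h1, add_assoc, ← add_assoc (gd 2 (jo (kt (Sm (L.take r))) t)), add_self_two, zero_add]
  rw [key L.length le_rfl, List.take_length]

end Pool.Agent.U291.KE
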