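import Mathlib
import Pool.Agent.TH410.KV.CubMain
import Pool.Agent.U291.KE.Lists
import Pool.Agent.U291.KE.Ext

set_option autoImplicit false
set_option linter.unusedSectionVars false

/-! Containment of a member of a family which splits into independent and cubical classes. -/

namespace Pool.Agent.U291.KE

open Finset Pool.Agent.H98R2.Ev Pool.Agent.H98R2.Nb Pool.Agent.TH410.KV

/-- a partition of the vertices into `h` classes which induce subgraphs of a hypercube, the classes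
with index at least `g` are independent -/
def MS {k : ℕ} (h g N : ℕ) (G : SimpleGraph (Fin k)) : Prop :=
  ∃ (κ : Fin k → Fin h) (φ : Fin k → Finset (Fin N)),
    (∀ x y, κ x = κ y → φ x = φ y → x = y) ∧
    ∀ x y, κ x = κ y → G.Adj x y → (κ x : ℕ) < g ∧ (symmDiff (φ x) (φ y)).card = 1

theorem MS.mono {k h h' g g' N : ℕ} {G : SimpleGraph (Fin k)} (hG : MS h g N G) (hh : h ≤ h')
    (hg : g ≤ g') : MS h' g' N G := by
  obtain ⟨κ, φ, h1, h2⟩ := hG
  refine ⟨fun x => Fin.castLE hh (κ x), φ, fun x y h => h1 x y ?_, fun x y h hxy => ?_⟩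
  · exact Fin.castLE_injective hh h
  · obtain ⟨h3, h4⟩ := h2 x y (Fin.castLE_injective hh h) hxy
    exact ⟨lt_of_lt_of_le h3 hg, h4⟩

section Types

variable {𝓕 : Pool.Agent.TH410.KV.Fam}

theorem xi_le_ct {b ℓ : ℕ} (hb : ∀ F : 𝓕, F.1.1 ≤ b) (hℓ : b ^ 2 < ℓ) (w : (ZMod ℓ)ˣ)
    (T : Finset (Om ℓ w)) : le (xi : TY 𝓕) (ct hb hℓ w T) := by
  have hbl : b ≤ ℓ := by nlinarith
  intro F U h
  refine ⟨fun x => ((x : ℕ) : ZMod ℓ), ?_, fun x hx y hy hxy => absurd hxy (h x hx y hy)⟩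
  intro x _ y _ hxy
  have h1 := (ZMod.natCast_eq_natCast_iff' _ _ _).1 hxy
  have h2 : (x : ℕ) < ℓ := lt_of_lt_of_le x.2 ((hb F).trans hbl)
  have h3 : (y : ℕ) < ℓ := lt_of_lt_of_le y.2 ((hb F).trans hbl)
  rw [Nat.mod_eq_of_lt h2, Nat.mod_eq_of_lt h3] at h1
  exact Fin.ext h1

theorem jo_mono_right {s t t' : TY 𝓕} (h : le t t') : le (jo s t) (jo s t') := by
  rintro F U ⟨A, h1, h2, h3⟩
  exact ⟨A, h1, h2, h F _ h3⟩

/-- the mixed member fits into the join of a complete multipartite and a circulant block -/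
theorem mixed_univ {b : ℕ} (hb : ∀ F : 𝓕, F.1.1 ≤ b) (I N h' : ℕ) (F : 𝓕)
    (hF : MS (2 ^ I + h') (2 ^ I) N F.1.2) {ℓ : ℕ} [Fact ℓ.Prime] (hℓ : b ^ 2 < ℓ)
    (w : (ZMod ℓ)ˣ) (hord : 3 ^ N ≤ orderOf w) (T : Finset (Om ℓ w)) (hT : T.Nonempty) :
    univ ∈ (jo (kt h') ((J 2)^[I] (ct hb hℓ w T))).1 F := by
  classical
  obtain ⟨κ, φ, h1, h2⟩ := hF
  obtain ⟨ψ, hψ1, hψ2⟩ := cube_in_circ ℓ w T hT N hord
  have hcard : Fintype.card (Fin I → ZMod 2) = 2 ^ I := by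
    rw [Fintype.card_fun, ZMod.card, Fintype.card_fin]
  let e : (Fin I → ZMod 2) ≃ Fin (2 ^ I) := Fintype.equivFinOfCardEq hcard
  refine ⟨univ.filter (fun x => 2 ^ I ≤ (κ x : ℕ)), subset_univ _, ?_, ?_⟩
  · refine ⟨fun x => (κ x : ℕ) - 2 ^ I, ?_, ?_⟩
    · intro x hx
      rw [mem_filter] at hx
      have := (κ x).2
      show (κ x : ℕ) - 2 ^ I < h'
      omega
    · intro x hx y hy hxy heq
      rw [mem_filter] at hx hy
      have heq' : (κ x : ℕ) - 2 ^ I = (κ y : ℕ) - 2 ^ I := heq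
      have h3 : κ x = κ y := Fin.ext (by omega)
      have h4 := (h2 x y h3 hxy).1
      omega
  · rw [mem_iter]
    refine ⟨fun x => if h : (κ x : ℕ) < 2 ^ I then e.symm ⟨κ x, h⟩ else fun _ => 0,
      fun a => ⟨fun x => ψ (φ x), ?_, ?_⟩⟩
    · intro x hx y hy hxy
      simp only [coe_filter, mem_sdiff, mem_univ, mem_filter, true_and, Set.mem_ofPred_eq,
        not_le] at hx hy
      have hx2 := hx.2
      have hy2 := hy.2
      rw [dif_pos hx.1] at hx2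
      rw [dif_pos hy.1] at hy2
      have h3 := e.symm.injective (hx2.trans hy2.symm)
      have h4 : κ x = κ y := Fin.ext (by simpa using h3)
      exact h1 x y h4 (hψ1 hxy)
    · intro x hx y hy hxy
      simp only [mem_filter, mem_sdiff, mem_univ, true_and, not_le] at hx hy
      have hx2 := hx.2
      have hy2 := hy.2
      rw [dif_pos hx.1] at hx2
      rw [dif_pos hy.1] at hy2
      have h3 := e.symm.injective (hx2.trans hy2.symm)
      have h4 : κ x = κ y := Fin.ext (by simpa using h3)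
      exact hψ2 _ _ (h2 x y h4 hxy).2

theorem kt_iter_ct {b : ℕ} (hb : ∀ F : 𝓕, F.1.1 ≤ b) (i : ℕ) {ℓ : ℕ} (hℓ : b ^ 2 < ℓ)
    (w : (ZMod ℓ)ˣ) (T : Finset (Om ℓ w)) :
    le (kt (2 ^ i)) ((J 2)^[i] (ct hb hℓ w T)) :=
  kt_le_iter 2 i _ (xi_le_ct hb hℓ w T)

end Types

section Values

variable {𝓕 : Pool.Agent.TH410.KV.Fam}

/-- the value of the functional for one circulant graph -/
theorem Lb_value {b : ℕ} (hb : ∀ F : 𝓕, F.1.1 ≤ b) (I h' : ℕ) (hh' : h' < 2 ^ I) (L : List ℕ)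
    (hL : Sm L = h') (hSD : SD L) (F₁ : 𝓕) (hF₁ : F₁.1.2.Colorable (2 ^ (I + 1)))
    {ℓ : ℕ} (hℓ : b ^ 2 < ℓ) (w : (ZMod ℓ)ˣ) (T : Finset (Om ℓ w)) :
    Lb 𝓕 2 ((cl 2 (kt (2 ^ I)) + TT 𝓕 L) * cl 2 ((J 2)^[I] (ct hb hℓ w T))) =
      gd 2 (jo (kt h') ((J 2)^[I] (ct hb hℓ w T))) := by
  set t := (J 2)^[I] (ct hb hℓ w T) with ht
  have hle : le (kt (2 ^ I)) t := kt_iter_ct hb I hℓ w T
  have h1 : Lb 𝓕 2 (cl 2 t * cl 2 (kt (2 ^ I))) = gd 2 t := by
    rw [Lb_base 2 _ _ hle]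
    have h2 : gd 2 (jo (kt (2 ^ I)) t) = 0 := by
      apply gd_zero 2 _ F₁
      apply jo_mono_right hle
      rw [jo_kt_kt, ← two_mul, ← pow_succ', kt_univ]
      exact hF₁
    rw [h2, sub_zero]
  have h3 := Lb_TT L t hSD (le_trans' (kt_mono (by rw [hL]; exact hh'.le)) hle)
  rw [mul_comm, mul_add, map_add, h1, h3, ← add_assoc, add_self_two, zero_add, hL]

end Values

end Pool.Agent.U291.KE
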