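import Mathlib
import Pool.Agent.U291.KE.Main
import Pool.Agent.H98R2.Ev.T3
import Pool.Agent.H98R2.Ev.T15

set_option autoImplicit false
set_option linter.unusedSectionVars false

/-! Containment of a member of a family which splits into independent and cubical classes:
the number theory and the main theorem. -/

namespace Pool.Agent.U291.KE

open Finset Pool.Agent.H98R2.Ev Pool.Agent.H98R2.Nb Pool.Agent.TH410.KV

/-- the contradiction for one number of vertices -/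
theorem no_ne2 {p : ℕ} [Fact p.Prime] {I b : ℕ}
    {𝓕 : Pool.Agent.TH410.KV.Fam} (hb : ∀ F : 𝓕, F.1.1 ≤ b) (h0 : ∀ F : 𝓕, ¬ F.1.2.Colorable 1)
    (F₁ : 𝓕) (hF₁ : F₁.1.2.Colorable (2 ^ (I + 1))) (c : ℕ) (hc : 1 ≤ c) (hbc : b ≤ p ^ c)
    (e : ℕ) (he : I + 1 ≤ 2 ^ e) (a : ℕ)
    (M₀ k M j₀ M₂ : ℕ) (hM₀ : 1 ≤ M₀) (hM : M = M₀ + j₀ * (2 ^ (2 ^ e) - 1)) (hM₂ : M₂ ≤ M)
    (ℓ : Fin k → ℕ) [∀ j, Fact (ℓ j).Prime] (hinj : Function.Injective ℓ)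
    (hℓb : ∀ j, b ^ 2 < ℓ j) (hℓp : ∀ j, p ^ (c + 1) < ℓ j)
    (w : ∀ j, (ZMod (ℓ j))ˣ) (hord : ∀ j, orderOf (w j) = 2 ^ a)
    (z : AA 𝓕 2) (hz : ∀ j, zc 2 hb (hℓb j) (w j) = z)
    (hL : Lb 𝓕 2 (cl 2 (xi : TY 𝓕) ^ M₀ * z ^ k) ≠ 0) (n : ℕ)
    (hn : n = p ^ c * (M + (p - 1) * M₂) + ∑ j, ℓ j)
    (hne : NE (univ : Finset (EV (Fin n))) (fun S => ¬ Has 𝓕 (toG S))) : False := by
  classical
  have hp : p.Prime := Fact.out
  let F : Fin M → Type := fun i => GaloisField p (c + (if (i : ℕ) < M₂ then 1 else 0))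
  have hfin : ∀ i, Fintype (F i) := fun i => Fintype.ofFinite _
  have hFcard : ∀ i, Nat.card (F i) = p ^ (c + (if (i : ℕ) < M₂ then 1 else 0)) := by
    intro i
    exact GaloisField.card p _ (by omega)
  have hFcard' : ∀ i, Nat.card (F i) = p ^ c ∨ Nat.card (F i) = p ^ (c + 1) := by
    intro i
    rw [hFcard]
    split_ifs
    · exact Or.inr rfl
    · exact Or.inl rfl
  have hFb : ∀ i, b ≤ Nat.card (F i) := by
    intro i
    rcases hFcard' i with h | h <;> rw [h]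
    · exact hbc
    · exact hbc.trans (Nat.pow_le_pow_right hp.pos (Nat.le_succ c))
  have hemb : ∀ i, Nonempty (Fin b ↪ F i) := by
    intro i
    apply Function.Embedding.nonempty_of_card_le
    rw [Fintype.card_fin, ← Nat.card_eq_fintype_card]
    exact hFb i
  have hcard : Fintype.card (Fin n) = Fintype.card (VB F ℓ) := by
    rw [Fintype.card_fin, Fintype.card_sum, Fintype.card_sigma, Fintype.card_sigma]
    simp only [ZMod.card]
    rw [hn, ← size_sum p c M M₂ hp.one_le hM₂]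
    congr 1
    refine Finset.sum_congr rfl fun i _ => ?_
    rw [← Nat.card_eq_fintype_card, hFcard]
  let E : Fin n ≃ VB F ℓ := Fintype.equivOfCardEq hcard
  have hNE2 := ne_map15 (ev15 E) _ _ hne
  rw [Finset.map_univ_equiv] at hNE2
  have hNE3 : NE (univ : Finset (EV (VB F ℓ))) (fun S => ¬ Has 𝓕 (toG S)) := by
    have h1 : (fun S : Finset (EV (VB F ℓ)) => ¬ Has 𝓕 (toG S)) =
        (fun S => ¬ Has 𝓕 (toG (S.map (ev15 E).symm.toEmbedding))) := by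
      funext S
      have h1 : toG (S.map (ev15 E).symm.toEmbedding) = (toG S).map E.symm.toEmbedding :=
        toG_map15 E.symm S
      rw [h1]
      apply propext
      rw [not_iff_not]
      exact ⟨fun h => Has.mono' h ⟨(SimpleGraph.Iso.map E.symm (toG S)).toCopy⟩,
        fun h => Has.mono' h ⟨(SimpleGraph.Iso.map E.symm (toG S)).symm.toCopy⟩⟩
    rw [h1]
    exact hNE2
  have hpc : 0 < p ^ c - 1 := by
    have h1 : p ^ 1 ≤ p ^ c := Nat.pow_le_pow_right hp.pos hc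
    rw [pow_one] at h1
    have := hp.two_le
    omega
  have hpc1 : p ^ c ≤ p ^ (c + 1) := Nat.pow_le_pow_right hp.pos (Nat.le_succ c)
  have hcop : ∀ j, Nat.Coprime ((p ^ c - 1) * (p ^ (c + 1) - 1)) (ℓ j) := by
    intro j
    have h1 := hℓp j
    have hpr : (ℓ j).Prime := Fact.out
    refine Nat.Coprime.mul_left ?_ ?_
    · rw [Nat.coprime_comm, hpr.coprime_iff_not_dvd]
      intro h
      have := Nat.le_of_dvd hpc h
      omega
    · rw [Nat.coprime_comm, hpr.coprime_iff_not_dvd]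
      intro h
      have := Nat.le_of_dvd (by omega) h
      omega
  have hcrit := crit_c (F := F) p 2 a 𝓕 F₁.1 F₁.2
    (fun H hH h => h0 ⟨H, hH⟩ h)
    (fun i => (hb F₁).trans (hFb i)) ((p ^ c - 1) * (p ^ (c + 1) - 1))
    (Nat.mul_pos hpc (by omega)) hcop
    (fun i => by
      rcases hFcard' i with h | h <;> rw [h]
      · exact Dvd.intro _ rfl
      · exact Dvd.intro_left _ rfl)
    hinj w (fun j => by rw [← hord j]; exact pow_orderOf_eq_one _) hNE3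
  have hcnt := count_eq (F := F) 2 hb hℓb hemb w
  rw [(ZMod.intCast_zmod_eq_zero_iff_dvd _ 2).2 hcrit] at hcnt
  apply hL
  have hX : ∀ H : 𝓕, univ ∉ (xi : TY 𝓕).1 H := by
    intro H hH
    have h2 : univ ∈ ((J 2)^[0] (xi : TY 𝓕)).1 H := hH
    rw [xi_iter, pow_zero] at h2
    exact h0 H h2
  have hnt : Nontrivial (AA 𝓕 2) := nontrivial_AA 2 _ hX
  have hch : CharP (AA 𝓕 2) 2 := charP_AA 2
  have hDe : (De 2 ^ (I + 1)) (cl 2 (xi : TY 𝓕)) = 0 := by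
    rw [De_cl 2 (Or.inl rfl)]
    exact cl_zero 2 _ F₁ ((xi_iter 2 (I + 1) F₁).2 hF₁)
  have hper := pow_period 2 hDe he
  have hX2 : cl 2 (xi : TY 𝓕) ^ M = cl 2 (xi : TY 𝓕) ^ M₀ := by
    rw [hM]
    exact pow_add_period (Nat.one_le_pow _ _ (by norm_num)) hper M₀ hM₀ j₀
  rw [Fintype.card_fin, hX2, Finset.prod_congr rfl (fun j _ => hz j), prod_const, card_univ,
    Fintype.card_fin] at hcnt
  exact hcnt.symm

/-- the sum of the circulant blocks with its top join -/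
theorem De_zc2 {𝓕 : Pool.Agent.TH410.KV.Fam} [CharP (AA 𝓕 2) 2] {b : ℕ}
    (hb : ∀ F : 𝓕, F.1.1 ≤ b) (i : ℕ) {ℓ : ℕ} [NeZero ℓ] (hℓ : b ^ 2 < ℓ) (w : (ZMod ℓ)ˣ) :
    (De 2 ^ i) (zc 2 hb hℓ w) =
      ∑ T : Finset (Om ℓ w), ((-1 : ZMod 2) ^ T.card) • cl 2 ((J 2)^[i] (ct hb hℓ w T)) := by
  unfold zc
  rw [map_sum]
  refine Finset.sum_congr rfl fun T _ => ?_
  rw [map_smul, De_cl 2 (Or.inl rfl)]

/-- **The main theorem**, for a family with a member that is `(h + 1)`-colourable. -/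
theorem mixed_main_aux (I N b h : ℕ) (𝓕 : Pool.Agent.TH410.KV.Fam) (hb : ∀ F ∈ 𝓕, F.1 ≤ b)
    (h0 : ∀ F ∈ 𝓕, ¬ F.2.Colorable h) (hI1 : 2 ^ I ≤ h) (hI2 : h < 2 ^ (I + 1))
    (hF₁ : ∃ F ∈ 𝓕, F.2.Colorable (h + 1)) (hF₀ : ∃ F ∈ 𝓕, MS h (2 ^ I) N F.2) :
    ∃ n₀ : ℕ, ∀ n : ℕ, n₀ ≤ n →
      ∀ s : Finset (Sym2 (Fin n)) → SimpleGraph (Fin n) → Sym2 (Fin n),
        (∀ (Q : Finset (Sym2 (Fin n))) (G H : SimpleGraph (Fin n)),
            (∀ e ∈ Q, (e ∈ G.edgeSet ↔ e ∈ H.edgeSet)) → s Q G = s Q H) →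
        ∃ G H : SimpleGraph (Fin n),
          (∀ e ∈ (fun Q : Finset (Sym2 (Fin n)) => insert (s Q G) Q)^[n.choose 2 - 1]
                (∅ : Finset (Sym2 (Fin n))),
              (e ∈ G.edgeSet ↔ e ∈ H.edgeSet)) ∧ Has 𝓕 G ∧ ¬ Has 𝓕 H := by
  classical
  obtain ⟨F₀, hF₀, hms⟩ := hF₀
  obtain ⟨F₁, hF₁, hcol₁⟩ := hF₁
  have hpq := pq2
  have hpp : Fact (Nat.Prime 23) := ⟨hpq.hp⟩
  have hb' : ∀ F : 𝓕, F.1.1 ≤ b := fun F => hb F.1 F.2
  have h0' : ∀ F : 𝓕, ¬ F.1.2.Colorable h := fun F => h0 F.1 F.2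
  have hh1 : 1 ≤ h := le_trans Nat.one_le_two_pow hI1
  have h01 : ∀ F : 𝓕, ¬ F.1.2.Colorable 1 := fun F hF => h0' F (hF.mono hh1)
  have hcol₂ : F₁.2.Colorable (2 ^ (I + 1)) := hcol₁.mono hI2
  have hfinTY : Finite (TY 𝓕) := finite_TY hb'
  have hfty : Fintype (TY 𝓕) := Fintype.ofFinite _
  obtain ⟨h', hh'⟩ : ∃ h', h = 2 ^ I + h' := ⟨h - 2 ^ I, by omega⟩
  have hh'2 : h' < 2 ^ I := by
    rw [pow_succ] at hI2
    omega
  obtain ⟨L, hL1, hL2⟩ := exists_digits h'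
  set c := b + 1 with hc
  have hbc : b ≤ 23 ^ c :=
    (Nat.lt_pow_self hpq.hp.one_lt).le.trans (Nat.pow_le_pow_right hpq.hp.pos (Nat.le_succ b))
  obtain ⟨T, hT1, hT2⟩ := hpq.per c
  set e := I + 1 with he
  have heI : I + 1 ≤ 2 ^ e := (Nat.lt_pow_self (by norm_num)).le
  set a := 2 * N with ha
  have haN : 3 ^ N ≤ 2 ^ a := by
    rw [ha, pow_mul]
    exact Nat.pow_le_pow_left (by norm_num) _
  -- the primes
  have hex : ∀ l : ℕ, ∃ f : TY 𝓕 → ZMod 2, ∀ [Fact l.Prime] (hl : b ^ 2 < l), 2 ^ a ∣ l - 1 →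
      ∃ w : (ZMod l)ˣ, orderOf w = 2 ^ a ∧ cf 2 hb' hl w = f := by
    intro l
    by_cases hl : l.Prime ∧ b ^ 2 < l ∧ 2 ^ a ∣ l - 1
    · have : Fact l.Prime := ⟨hl.1⟩
      obtain ⟨w, hw⟩ := exists_order l (2 ^ a) hl.2.2
      exact ⟨cf 2 hb' hl.2.1 w, fun _ _ => ⟨w, hw, rfl⟩⟩
    · refine ⟨0, ?_⟩
      intro hp h1 h2
      exact absurd ⟨hp.out, h1, h2⟩ hl
  choose f hf using hex
  obtain ⟨zf, ε, hε, hεp⟩ := inf_primes (23 ^ c * 2 ^ a) (max (b ^ 2) (23 ^ (c + 1)))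
    (Nat.mul_ne_zero (pow_ne_zero _ hpq.hp.ne_zero) (pow_ne_zero _ (by norm_num))) f
  have hεP : ∀ j, Fact (ε j).Prime := fun j => ⟨(hεp j).1⟩
  have hεb : ∀ j, b ^ 2 < ε j := fun j => lt_of_le_of_lt (le_max_left _ _) (hεp j).2.1
  have hεc : ∀ j, 23 ^ (c + 1) < ε j := fun j => lt_of_le_of_lt (le_max_right _ _) (hεp j).2.1
  have hε1 : ∀ j, ε j ≡ 1 [MOD 23 ^ c] := fun j => (hεp j).2.2.1.of_mul_right _
  have hε2 : ∀ j, 2 ^ a ∣ ε j - 1 := by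
    intro j
    have h1 : ε j ≡ 1 [MOD 2 ^ a] := (hεp j).2.2.1.of_mul_left _
    exact (Nat.modEq_iff_dvd' (hεp j).1.one_le).1 h1.symm
  have hw : ∀ j, ∃ w : (ZMod (ε j))ˣ, orderOf w = 2 ^ a ∧ cf 2 hb' (hεb j) w = zf := by
    intro j
    obtain ⟨w, hw1, hw2⟩ := hf (ε j) (hεb j) (hε2 j)
    exact ⟨w, hw1, hw2.trans (hεp j).2.2.2⟩
  choose w hw1 hw2 using hw
  set z : AA 𝓕 2 := ∑ t : TY 𝓕, zf t • cl 2 t with hz
  have hzj : ∀ j, zc 2 hb' (hεb j) (w j) = z := by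
    intro j
    rw [zc_eq, hw2]
  -- the algebra
  have hX : ∀ H : 𝓕, univ ∉ (xi : TY 𝓕).1 H := by
    intro H hH
    have h2 : univ ∈ ((J 2)^[0] (xi : TY 𝓕)).1 H := hH
    rw [xi_iter, pow_zero] at h2
    exact h01 H h2
  have hnt : Nontrivial (AA 𝓕 2) := nontrivial_AA 2 _ hX
  have hch : CharP (AA 𝓕 2) 2 := charP_AA 2
  set x : AA 𝓕 2 := cl 2 (xi : TY 𝓕) with hx
  set v : AA 𝓕 2 := (De 2 ^ I) z with hv
  have hvsum : v = ∑ T : Finset (Om (ε 0) (w 0)), ((-1 : ZMod 2) ^ T.card) •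
      cl 2 ((J 2)^[I] (ct hb' (hεb 0) (w 0) T)) := by
    rw [hv, ← hzj 0, De_zc2]
  have hv0 : De 2 v = 0 := by
    have h1 : De 2 v = (De 2 ^ (I + 1)) z := by
      rw [pow_succ', Module.End.mul_apply, hv]
    rw [h1, ← hzj 0, De_zc2]
    refine Finset.sum_eq_zero fun T _ => ?_
    rw [cl_zero 2 _ ⟨F₁, hF₁⟩, smul_zero]
    exact kt_iter_ct hb' (I + 1) (hεb 0) (w 0) T ⟨F₁, hF₁⟩ _ ((kt_univ _ ⟨F₁, hF₁⟩).2 hcol₂)
  set y : AA 𝓕 2 := cl 2 (kt (2 ^ I)) + TT 𝓕 L with hy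
  have hPk : ∀ i, Po x (cl 2 (kt (2 ^ i) : TY 𝓕)) := by
    intro i
    have h1 : cl 2 (kt (2 ^ i) : TY 𝓕) = (De 2 ^ i) x := by
      rw [hx, De_cl 2 (Or.inl rfl), iter_xi]
    rw [h1]
    exact (Po.self x).De i
  have hPP : ∀ L' : List ℕ, L' ≠ [] → Po x (PP 𝓕 L') := by
    intro L' hL'
    refine Po.list_prod _ (by simpa using hL') fun y' hy' => ?_
    obtain ⟨i, _, rfl⟩ := List.mem_map.1 hy'
    exact hPk i
  have hPy : Po x y := by
    refine (hPk I).add (Po.sum _ _ fun k hk => hPP _ ?_)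
    rw [mem_range] at hk
    intro h
    have := congrArg List.length h
    rw [List.length_take, List.length_nil] at this
    omega
  have hLyv : Lb 𝓕 2 (y * v) ≠ 0 := by
    have h1 : Lb 𝓕 2 (y * v) = 1 := by
      rw [hvsum, Finset.mul_sum, map_sum, Finset.sum_eq_single (∅ : Finset (Om (ε 0) (w 0)))]
      · rw [card_empty, pow_zero, one_smul, hy,
          Lb_value hb' I h' hh'2 L hL1 hL2 ⟨F₁, hF₁⟩ hcol₂]
        apply gd_one
        intro F hF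
        rw [ct_empty, iter_xi, jo_kt_kt, kt_univ, add_comm, ← hh'] at hF
        exact h0' F hF
      · intro T _ hT
        rw [mul_smul_comm, map_smul, hy,
          Lb_value hb' I h' hh'2 L hL1 hL2 ⟨F₁, hF₁⟩ hcol₂,
          gd_zero 2 _ ⟨F₀, hF₀⟩, smul_zero]
        exact mixed_univ hb' I N h' ⟨F₀, hF₀⟩ (by rw [← hh']; exact hms) (hεb 0) (w 0)
          (by rw [hw1]; exact haN) T (nonempty_iff_ne_empty.2 hT)
      · intro h
        exact absurd (mem_univ _) h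
    rw [h1]
    exact one_ne_zero
  obtain ⟨BM, hBM⟩ := hPy
  -- the bounds
  set P := 23 ^ c with hP
  have hP1 : 1 ≤ P := Nat.one_le_pow _ _ hpq.hp.pos
  set Q := 2 ^ (2 ^ e) - 1 with hQ
  have hQ1 : 1 ≤ Q := by
    have h1 : 2 ^ 1 ≤ 2 ^ (2 ^ e) := Nat.pow_le_pow_right (by norm_num)
      (Nat.one_le_pow _ _ (by norm_num))
    rw [pow_one] at h1
    omega
  set NM := (2 * P) * 2 ^ (T * I) with hNM
  set SM := ∑ j ∈ range NM, ε j with hSM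
  refine ⟨SM + P * (2 * ((23 - 1) * Q) + BM) + P + 2, fun n hn s hs => ?_⟩
  by_contra hbad
  have hNE := ne_of_strategy n (by omega) (fun G => Has 𝓕 G) s hs hbad
  set s₀ := n % P + P with hs₀
  have hs₀n : s₀ ≡ n [MOD P] := by
    rw [hs₀]
    have h1 : n % P + P ≡ n + 0 [MOD P] :=
      (Nat.mod_modEq n P).add ((Nat.modEq_zero_iff_dvd).2 dvd_rfl)
    simpa using h1
  have hs₀P : s₀ ≤ 2 * P := by
    have := Nat.mod_lt n hP1
    omega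
  obtain ⟨M₀, k, hM₀1, hM₀2, hk1, hk2, hL⟩ := extract2 (Lb 𝓕 2) hBM hv.symm hv0 hLyv hT1 hT2
    s₀ (by omega)
  have hkM : k ≤ NM := hk1.trans (Nat.mul_le_mul_right _ hs₀P)
  -- the sum of the primes
  set σ := ∑ j ∈ range k, ε j with hσ
  have hσS : σ ≤ SM := by
    rw [hσ, hSM]
    exact Finset.sum_le_sum_of_subset (range_subset_range.2 hkM)
  have hσn : σ ≤ n := by omega
  have hσm : ∀ m, ∑ j ∈ range m, ε j ≡ m [MOD P] := by
    intro m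
    induction m with
    | zero => exact Nat.ModEq.refl _
    | succ m ih =>
      rw [sum_range_succ]
      exact ih.add (hε1 m)
  have hdvd : P ∣ n - σ := by
    have h1 : σ ≡ n [MOD P] := ((hσm k).trans hk2).trans hs₀n
    exact (Nat.modEq_iff_dvd' hσn).1 h1
  obtain ⟨R, hR⟩ := hdvd
  have hRbig : 2 * ((23 - 1) * Q) + M₀ ≤ R := by
    by_contra hcon
    push Not at hcon
    have h1 : P * R ≤ P * (2 * ((23 - 1) * Q) + BM) := Nat.mul_le_mul_left _ (by omega)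
    omega
  obtain ⟨M, j₀, M₂, hM1, hM2, hM3⟩ := choose_M (23 - 1) Q M₀ R (by norm_num) hQ1 (hpq.cop e)
    hRbig
  have hσF : σ = ∑ j : Fin k, ε j := by
    rw [hσ, Fin.sum_univ_eq_sum_range (fun j => ε j) k]
  refine no_ne2 (p := 23) hb' h01 ⟨F₁, hF₁⟩ hcol₂ c (by omega) hbc e heI a M₀ k M
    j₀ M₂ hM₀1 hM1 hM3 (fun j : Fin k => ε j) (fun i j h => Fin.ext (hε h)) (fun j => hεb j)
    (fun j => hεc j) (fun j => w j) (fun j => hw1 j) z (fun j => hzj j) hL n ?_ hNE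
  rw [← hσF, ← hM2, ← hR]
  omega

/-- **The main theorem.** -/
theorem mixed_main (I N b h : ℕ) (𝓕 : Pool.Agent.TH410.KV.Fam) (hb : ∀ F ∈ 𝓕, F.1 ≤ b)
    (h0 : ∀ F ∈ 𝓕, ¬ F.2.Colorable h) (hI : 2 ^ I ≤ h) (hF₀ : ∃ F ∈ 𝓕, MS h (2 ^ I) N F.2) :
    ∃ n₀ : ℕ, ∀ n : ℕ, n₀ ≤ n →
      ∀ s : Finset (Sym2 (Fin n)) → SimpleGraph (Fin n) → Sym2 (Fin n),
        (∀ (Q : Finset (Sym2 (Fin n))) (G H : SimpleGraph (Fin n)),
            (∀ e ∈ Q, (e ∈ G.edgeSet ↔ e ∈ H.edgeSet)) → s Q G = s Q H) →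
        ∃ G H : SimpleGraph (Fin n),
          (∀ e ∈ (fun Q : Finset (Sym2 (Fin n)) => insert (s Q G) Q)^[n.choose 2 - 1]
                (∅ : Finset (Sym2 (Fin n))),
              (e ∈ G.edgeSet ↔ e ∈ H.edgeSet)) ∧ Has 𝓕 G ∧ ¬ Has 𝓕 H := by
  classical
  obtain ⟨F₀, hF₀, hms⟩ := hF₀
  have hex : ∃ m, ∃ F ∈ 𝓕, F.2.Colorable m := by
    refine ⟨F₀.1, F₀, hF₀, ?_⟩
    have := F₀.2.colorable_of_fintype
    rwa [Fintype.card_fin] at this
  set m := Nat.find hex with hm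
  obtain ⟨F₁, hF₁, hcol⟩ := Nat.find_spec hex
  have hlt : h < m := by
    by_contra hcon
    push Not at hcon
    exact h0 F₁ hF₁ (hcol.mono hcon)
  have hmin : ∀ F ∈ 𝓕, ¬ F.2.Colorable (m - 1) := by
    intro F hF hc
    exact Nat.find_min hex (m := m - 1) (by omega) ⟨F, hF, hc⟩
  set I₁ := Nat.log 2 (m - 1) with hI₁
  have hpos : 1 ≤ 2 ^ I := Nat.one_le_two_pow
  have h1 : 2 ^ I₁ ≤ m - 1 := Nat.pow_log_le_self 2 (by omega)
  have h2 : m - 1 < 2 ^ (I₁ + 1) := Nat.lt_pow_succ_log_self (by norm_num) _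
  have h3 : 2 ^ I ≤ 2 ^ I₁ := by
    apply Nat.pow_le_pow_right (by norm_num)
    apply Nat.le_log_of_pow_le (by norm_num)
    omega
  refine mixed_main_aux I₁ N b (m - 1) 𝓕 hb hmin h1 h2 ⟨F₁, hF₁, ?_⟩
    ⟨F₀, hF₀, hms.mono (by omega) h3⟩
  have e1 : m - 1 + 1 = m := by omega
  rw [e1]
  exact hcol

end Pool.Agent.U291.KE
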